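import Pool.Agent.Lib.MP_2fe79c_gt.L1.Defs

/-!
# Averaging over a period
-/

namespace MP_2fe79c_gt.L1

open MeasureTheory Set

private theorem Avg_meas {W : Set ℝ} (hW : MeasurableSet W) : Measurable (ind W) := by
  unfold ind
  exact measurable_const.indicator hW

private theorem Avg_nonneg (W : Set ℝ) (x : ℝ) : 0 ≤ ind W x := by
  unfold ind
  exact Set.indicator_nonneg (fun _ _ => zero_le_one) x

private theorem Avg_le (W : Set ℝ) (x : ℝ) : ind W x ≤ 1 := by
  classical
  unfold ind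
  rw [Set.indicator_apply]
  split_ifs
  · exact le_rfl
  · exact zero_le_one

private theorem Avg_one {W : Set ℝ} {x : ℝ} (hx : x ∈ W) : ind W x = 1 := by
  unfold ind
  rw [Set.indicator_of_mem hx]

private theorem Avg_int {W : Set ℝ} (hW : MeasurableSet W) (c : ℝ) :
    IntervalIntegrable (fun x => ind W (x + c)) volume 0 1 := by
  rw [intervalIntegrable_iff]
  apply Measure.integrableOn_of_bounded (M := 1)
  · rw [Set.uIoc_of_le zero_le_one, Real.volume_Ioc]
    exact ENNReal.ofReal_ne_top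
  · exact ((Avg_meas hW).comp (measurable_id.add_const c)).aestronglyMeasurable
  · refine Filter.Eventually.of_forall fun x => ?_
    rw [Real.norm_eq_abs, abs_of_nonneg (Avg_nonneg W _)]
    exact Avg_le W _

private theorem Avg_val {W : Set ℝ} (hW : MeasurableSet W) (hWp : ∀ y, y + 1 ∈ W ↔ y ∈ W)
    (c : ℝ) : ∫ x in (0 : ℝ)..1, ind W (x + c) = (volume (W ∩ Ioc 0 1)).toReal := by
  have hP : Function.Periodic (ind W) 1 := by
    classical
    intro y
    unfold ind
    rw [Set.indicator_apply, Set.indicator_apply]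
    by_cases h : y ∈ W
    · rw [if_pos h, if_pos ((hWp y).mpr h)]
    · rw [if_neg h, if_neg (fun h' => h ((hWp y).mp h'))]
  have h1 : ∫ x in (0 : ℝ)..1, ind W (x + c) = ∫ x in (0 + c)..(1 + c), ind W x :=
    intervalIntegral.integral_comp_add_right (ind W) c
  have h2 : ∫ x in c..(c + 1), ind W x = ∫ x in (0 : ℝ)..(0 + 1), ind W x :=
    hP.intervalIntegral_add_eq c 0
  rw [h1, zero_add, add_comm 1 c, h2, zero_add, intervalIntegral.integral_of_le zero_le_one]
  unfold ind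
  rw [integral_indicator hW, setIntegral_const, smul_eq_mul, mul_one, Measure.real,
    Measure.restrict_apply hW]

theorem avg {m N : ℕ} (hN : 0 < N) (t : Fin m → ℝ) {W V Z : Set ℝ} (hW : MeasurableSet W)
    (hV : MeasurableSet V) (hWp : ∀ y, y + 1 ∈ W ↔ y ∈ W) (hVp : ∀ y, y + 1 ∈ V ↔ y ∈ V)
    {w κ : ℝ} (hw : w ≤ (volume (W ∩ Ioc 0 1)).toReal) (hκ : (volume (V ∩ Ioc 0 1)).toReal ≤ κ)
    (hlt : (N : ℝ) ^ m * κ < w / 2) (hZ : volume Z = 0) :
    ∃ x, x ∉ Z ∧ (∀ n : Fin m → Fin N, x + dot t n ∉ V) ∧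
      w / 2 * (N : ℝ) ^ m ≤ ∑ n : Fin m → Fin N, ind W (x + dot t n) := by
  by_contra hcon
  push Not at hcon
  have hNr : (0 : ℝ) < (N : ℝ) := by exact_mod_cast hN
  have hNm : (0 : ℝ) < (N : ℝ) ^ m := pow_pos hNr m
  have hcard : (Fintype.card (Fin m → Fin N) : ℝ) = (N : ℝ) ^ m := by
    rw [Fintype.card_fun, Fintype.card_fin, Fintype.card_fin]
    push_cast
    rfl
  have hκ0 : 0 ≤ κ := le_trans ENNReal.toReal_nonneg hκ
  have hw0 : 0 < w := by
    have := mul_nonneg hNm.le hκ0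
    linarith
  have hpt : ∀ x, x ∉ Z → ∑ n : Fin m → Fin N, ind W (x + dot t n) ≤
      w / 2 * (N : ℝ) ^ m + (N : ℝ) ^ m * ∑ n : Fin m → Fin N, ind V (x + dot t n) := by
    intro x hx
    by_cases hb : ∀ n : Fin m → Fin N, x + dot t n ∉ V
    · have h1 := hcon x hx hb
      have h2 : 0 ≤ ∑ n : Fin m → Fin N, ind V (x + dot t n) :=
        Finset.sum_nonneg fun n _ => Avg_nonneg V _
      have h3 := mul_nonneg hNm.le h2
      linarith
    · push Not at hb
      obtain ⟨n0, hn0⟩ := hb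
      have h1 : (1 : ℝ) ≤ ∑ n : Fin m → Fin N, ind V (x + dot t n) := by
        have h4 : ind V (x + dot t n0) ≤ ∑ n : Fin m → Fin N, ind V (x + dot t n) :=
          Finset.single_le_sum (f := fun n : Fin m → Fin N => ind V (x + dot t n))
            (fun n _ => Avg_nonneg V _) (Finset.mem_univ n0)
        rw [Avg_one hn0] at h4
        exact h4
      have h2 : ∑ n : Fin m → Fin N, ind W (x + dot t n) ≤ (N : ℝ) ^ m := by
        calc ∑ n : Fin m → Fin N, ind W (x + dot t n) ≤ ∑ _n : Fin m → Fin N, (1 : ℝ) :=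
              Finset.sum_le_sum fun n _ => Avg_le W _
          _ = (N : ℝ) ^ m := by
              rw [Finset.sum_const, Finset.card_univ, nsmul_eq_mul, mul_one, hcard]
      have h3 : (N : ℝ) ^ m * 1 ≤ (N : ℝ) ^ m * ∑ n : Fin m → Fin N, ind V (x + dot t n) :=
        mul_le_mul_of_nonneg_left h1 hNm.le
      have h4 : 0 ≤ w / 2 * (N : ℝ) ^ m := mul_nonneg (by linarith) hNm.le
      linarith
  have hiW : ∀ n ∈ (Finset.univ : Finset (Fin m → Fin N)),
      IntervalIntegrable (fun x => ind W (x + dot t n)) volume 0 1 := fun n _ => Avg_int hW _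
  have hiV : ∀ n ∈ (Finset.univ : Finset (Fin m → Fin N)),
      IntervalIntegrable (fun x => ind V (x + dot t n)) volume 0 1 := fun n _ => Avg_int hV _
  have hIW : IntervalIntegrable (fun x => ∑ n : Fin m → Fin N, ind W (x + dot t n)) volume 0 1 := by
    have h0 := IntervalIntegrable.sum (Finset.univ : Finset (Fin m → Fin N))
      (f := fun n x => ind W (x + dot t n)) hiW
    have h1 : (fun x => ∑ n : Fin m → Fin N, ind W (x + dot t n)) =
        ∑ n : Fin m → Fin N, fun x => ind W (x + dot t n) := by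
      funext x
      rw [Finset.sum_apply]
    rw [h1]
    exact h0
  have hIV : IntervalIntegrable (fun x => ∑ n : Fin m → Fin N, ind V (x + dot t n)) volume 0 1 := by
    have h0 := IntervalIntegrable.sum (Finset.univ : Finset (Fin m → Fin N))
      (f := fun n x => ind V (x + dot t n)) hiV
    have h1 : (fun x => ∑ n : Fin m → Fin N, ind V (x + dot t n)) =
        ∑ n : Fin m → Fin N, fun x => ind V (x + dot t n) := by
      funext x
      rw [Finset.sum_apply]
    rw [h1]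
    exact h0
  have hIc : IntervalIntegrable (fun _ : ℝ => w / 2 * (N : ℝ) ^ m) volume 0 1 :=
    intervalIntegrable_const
  have hIR : IntervalIntegrable (fun x => w / 2 * (N : ℝ) ^ m +
      (N : ℝ) ^ m * ∑ n : Fin m → Fin N, ind V (x + dot t n)) volume 0 1 :=
    hIc.add (hIV.const_mul _)
  have hmono : ∫ x in (0 : ℝ)..1, ∑ n : Fin m → Fin N, ind W (x + dot t n) ≤
      ∫ x in (0 : ℝ)..1, (w / 2 * (N : ℝ) ^ m +
        (N : ℝ) ^ m * ∑ n : Fin m → Fin N, ind V (x + dot t n)) := by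
    apply intervalIntegral.integral_mono_ae zero_le_one hIW hIR
    have hae : ∀ᵐ x ∂(volume : Measure ℝ), x ∉ Z := measure_eq_zero_iff_ae_notMem.mp hZ
    filter_upwards [hae] with x hx
    exact hpt x hx
  have v1 : ∫ x in (0 : ℝ)..1, ∑ n : Fin m → Fin N, ind W (x + dot t n) =
      (N : ℝ) ^ m * (volume (W ∩ Ioc 0 1)).toReal := by
    rw [intervalIntegral.integral_finsetSum hiW]
    simp only [Avg_val hW hWp, Finset.sum_const, Finset.card_univ, nsmul_eq_mul, hcard]
  have v2 : ∫ x in (0 : ℝ)..1, ∑ n : Fin m → Fin N, ind V (x + dot t n) =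
      (N : ℝ) ^ m * (volume (V ∩ Ioc 0 1)).toReal := by
    rw [intervalIntegral.integral_finsetSum hiV]
    simp only [Avg_val hV hVp, Finset.sum_const, Finset.card_univ, nsmul_eq_mul, hcard]
  have v3 : ∫ x in (0 : ℝ)..1, (w / 2 * (N : ℝ) ^ m +
      (N : ℝ) ^ m * ∑ n : Fin m → Fin N, ind V (x + dot t n)) =
      w / 2 * (N : ℝ) ^ m + (N : ℝ) ^ m * ((N : ℝ) ^ m * (volume (V ∩ Ioc 0 1)).toReal) := by
    have h1 := intervalIntegral.integral_add hIc (hIV.const_mul ((N : ℝ) ^ m))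
    have h2 : ∫ x in (0 : ℝ)..1, (N : ℝ) ^ m * ∑ n : Fin m → Fin N, ind V (x + dot t n) =
        (N : ℝ) ^ m * ∫ x in (0 : ℝ)..1, ∑ n : Fin m → Fin N, ind V (x + dot t n) :=
      intervalIntegral.integral_const_mul _ _
    have h3 : ∫ _x in (0 : ℝ)..1, w / 2 * (N : ℝ) ^ m = w / 2 * (N : ℝ) ^ m := by
      rw [intervalIntegral.integral_const, sub_zero, one_smul]
    rw [h2, h3, v2] at h1
    exact h1
  rw [v1, v3] at hmono
  have e1 : (N : ℝ) ^ m * w ≤ (N : ℝ) ^ m * (volume (W ∩ Ioc 0 1)).toReal :=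
    mul_le_mul_of_nonneg_left hw hNm.le
  have e2 : (N : ℝ) ^ m * ((N : ℝ) ^ m * (volume (V ∩ Ioc 0 1)).toReal) ≤
      (N : ℝ) ^ m * ((N : ℝ) ^ m * κ) :=
    mul_le_mul_of_nonneg_left (mul_le_mul_of_nonneg_left hκ hNm.le) hNm.le
  have e3 : (N : ℝ) ^ m * ((N : ℝ) ^ m * κ) < (N : ℝ) ^ m * (w / 2) :=
    mul_lt_mul_of_pos_left hlt hNm
  linarith

end MP_2fe79c_gt.L1
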