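import Pool.Agent.Lib.MP_2fe79c_gt.L1.Defs

/-!
# Simple facts on the numbers
Plan: nn k q ≥ 1; pr ≥ 2, so LL ≥ 1 (Finset.prod_pos); RR k q ≥ 1 if q ≥ 1; qq k ≥ 4 by induction (qq (k+1) = 2 * MM ≥ 2 * qq k);
qq k ∣ qq (k+1) (q is a factor of MM); qq_dvd by induction (Nat.le_induction).
-/

namespace MP_2fe79c_gt.L1

open MeasureTheory Set

theorem LL_pos (k q : ℕ) : 0 < LL k q :=
  Finset.prod_pos fun r _ => (pr_prime k q r).pos

private theorem Basic_RR_pos {k q : ℕ} (hq : 1 ≤ q) : 0 < RR k q := by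
  have h1 : 0 < nn k q := Nat.succ_pos _
  have h2 : 0 < (nn k q) ^ (k + 1) := Nat.pow_pos h1
  exact Nat.mul_pos (Nat.mul_pos (by norm_num) hq) h2

theorem MM_pos {k q : ℕ} (hq : 1 ≤ q) : 0 < MM k q :=
  Nat.mul_pos (Nat.mul_pos (LL_pos k q) hq) (Basic_RR_pos hq)

theorem pr_dvd_MM (k q : ℕ) (r : Ix k q) : pr k q r ∣ MM k q := by
  have h1 : pr k q r ∣ LL k q := Finset.dvd_prod_of_mem (pr k q) (Finset.mem_univ r)
  rw [MM, mul_assoc]
  exact Dvd.dvd.mul_right h1 _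

private theorem Basic_le_MM {k q : ℕ} (hq : 1 ≤ q) : q ≤ MM k q := by
  have h1 := LL_pos k q
  have h2 := Basic_RR_pos (k := k) hq
  calc q = 1 * q * 1 := by ring
    _ ≤ LL k q * q * RR k q := Nat.mul_le_mul (Nat.mul_le_mul_right q h1) h2

theorem four_le_qq (k : ℕ) : 4 ≤ qq k := by
  induction k with
  | zero => exact le_of_eq (by rw [qq])
  | succ k ih =>
    have h1 : qq k ≤ MM k (qq k) := Basic_le_MM (by omega)
    have h2 : qq (k + 1) = 2 * MM k (qq k) := by rw [qq]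
    omega

theorem qq_lt (k : ℕ) : qq k < qq (k + 1) := by
  have h0 := four_le_qq k
  have h1 : qq k ≤ MM k (qq k) := Basic_le_MM (by omega)
  have h2 : qq (k + 1) = 2 * MM k (qq k) := by rw [qq]
  omega

theorem qq_strictMono : StrictMono qq := strictMono_nat_of_lt_succ qq_lt

theorem qq_dvd {i k : ℕ} (h : i ≤ k) : qq i ∣ qq k := by
  induction k, h using Nat.le_induction with
  | base => exact dvd_refl _
  | succ k _ ih =>
    refine ih.trans ?_
    have h2 : qq (k + 1) = 2 * MM k (qq k) := by rw [qq]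
    rw [h2, MM]
    exact ⟨2 * LL k (qq k) * RR k (qq k), by ring⟩

theorem two_MM_dvd {i k : ℕ} (h : i < k) : 2 * MM i (qq i) ∣ qq k := by
  have h2 : qq (i + 1) = 2 * MM i (qq i) := by rw [qq]
  rw [← h2]
  exact qq_dvd h

end MP_2fe79c_gt.L1
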