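import Pool.Agent.Lib.MP_2fe79c_gt.L1.Tele

/-!
# The bound for equidecomposable sets
Plan: u i y = ind (per (P i)) y, v i y = ind (per (P i)) (-y), t' i = s i * t i. At y = x + dot t' n:
sy A y - sy B y = ∑ i, [u i y + v i y - ind (per (P i)) (s i * (y - t i)) - ind (per (P i)) (s i * (-y - t i))], and for s i = 1 the last two are
u i (y - t' i) + v i (y + t' i), for s i = -1 (t' i = - t i) they are v i (y - t i) = v i (y + t' i) and u i (y + t i) = u i (y - t' i).
So it is ∑ i, [(u i y - u i (y - t' i)) + (v i y - v i (y + t' i))]; sum over n, exchange the sums, use tele and tele'.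
-/

namespace MP_2fe79c_gt.L1

open MeasureTheory Set

private theorem Bnd_nonneg (X : Set ℝ) (y : ℝ) : 0 ≤ ind X y :=
  Set.indicator_nonneg (fun _ _ => zero_le_one) y

private theorem Bnd_le_one (X : Set ℝ) (y : ℝ) : ind X y ≤ 1 := by
  unfold ind
  by_cases h : y ∈ X
  · rw [Set.indicator_of_mem h]
  · rw [Set.indicator_of_notMem h]; exact zero_le_one

theorem bound {m N : ℕ} {A B : Set ℝ} (P : Fin (m + 1) → Set ℝ) (s t : Fin (m + 1) → ℝ)
    (hs : ∀ i, s i = 1 ∨ s i = -1) (x : ℝ)
    (hA : ∀ n : Fin (m + 1) → Fin N, ∀ y : ℝ,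
      (y = x + dot (fun i => s i * t i) n ∨ y = -(x + dot (fun i => s i * t i) n)) →
      ind (per A) y = ∑ i, ind (per (P i)) y)
    (hB : ∀ n : Fin (m + 1) → Fin N, ∀ y : ℝ,
      (y = x + dot (fun i => s i * t i) n ∨ y = -(x + dot (fun i => s i * t i) n)) →
      ind (per B) y = ∑ i, ind (per (P i)) (s i * (y - t i))) :
    |∑ n : Fin (m + 1) → Fin N, (sy A (x + dot (fun i => s i * t i) n) -
      sy B (x + dot (fun i => s i * t i) n))| ≤ 2 * (m + 1) * (N : ℝ) ^ m := by
  have hterm : ∀ n : Fin (m + 1) → Fin N, sy A (x + dot (fun i => s i * t i) n) -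
      sy B (x + dot (fun i => s i * t i) n) =
      ∑ i, ((ind (per (P i)) (x + dot (fun i => s i * t i) n) -
        ind (per (P i)) (x + dot (fun i => s i * t i) n - s i * t i)) +
        ((fun y => ind (per (P i)) (-y)) (x + dot (fun i => s i * t i) n) -
          (fun y => ind (per (P i)) (-y)) (x + dot (fun i => s i * t i) n + s i * t i))) := by
    intro n
    unfold sy
    rw [hA n _ (Or.inl rfl), hA n _ (Or.inr rfl), hB n _ (Or.inl rfl), hB n _ (Or.inr rfl),
      ← Finset.sum_add_distrib, ← Finset.sum_add_distrib, ← Finset.sum_sub_distrib]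
    refine Finset.sum_congr rfl fun i _ => ?_
    set y := x + dot (fun i => s i * t i) n with hy
    rcases hs i with h | h
    · have e1 : s i * (y - t i) = y - s i * t i := by rw [h]; ring
      have e2 : s i * (-y - t i) = -(y + s i * t i) := by rw [h]; ring
      rw [e1, e2]
      ring
    · have e1 : s i * (y - t i) = -(y + s i * t i) := by rw [h]; ring
      have e2 : s i * (-y - t i) = y - s i * t i := by rw [h]; ring
      rw [e1, e2]
      ring
  simp only [hterm]
  rw [Finset.sum_comm]
  refine (Finset.abs_sum_le_sum_abs _ _).trans ?_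
  have key : ∀ i : Fin (m + 1), |∑ n : Fin (m + 1) → Fin N,
      ((ind (per (P i)) (x + dot (fun i => s i * t i) n) -
        ind (per (P i)) (x + dot (fun i => s i * t i) n - s i * t i)) +
        ((fun y => ind (per (P i)) (-y)) (x + dot (fun i => s i * t i) n) -
          (fun y => ind (per (P i)) (-y)) (x + dot (fun i => s i * t i) n + s i * t i)))| ≤
      2 * (N : ℝ) ^ m := by
    intro i
    rw [Finset.sum_add_distrib]
    have a1 := tele (N := N) (u := fun y => ind (per (P i)) y) (fun y => Bnd_nonneg _ _)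
      (fun y => Bnd_le_one _ _) (fun i => s i * t i) i x
    have a2 := tele' (N := N) (u := fun y => ind (per (P i)) (-y)) (fun y => Bnd_nonneg _ _)
      (fun y => Bnd_le_one _ _) (fun i => s i * t i) i x
    refine (abs_add_le _ _).trans ?_
    calc _ ≤ (N : ℝ) ^ m + (N : ℝ) ^ m := add_le_add a1 a2
      _ = 2 * (N : ℝ) ^ m := by ring
  refine (Finset.sum_le_sum fun i _ => key i).trans (le_of_eq ?_)
  rw [Finset.sum_const, Finset.card_univ, Fintype.card_fin, nsmul_eq_mul]
  push_cast
  ring

end MP_2fe79c_gt.L1
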