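import Pool.Agent.Lib.MP_2fe79c_gt.L1.Basic

/-!
# Both patterns occur
Plan: w n = round (MM * x n), so |MM * x n - w n| ≤ 1/2, and < 1/2 by ht (round_le / abs_sub_round; equality would give MM * x n = z + 1/2
for some integer z). (1) Chinese remainder theorem for the distinct primes pr n (Nat.chineseRemainderOfFinset / Ideal or ZMod version; or
induction): some i < LL with pr n ∣ w n + i for all n; then |MM * (x n + i / MM) - pr n * z| = |MM * x n - w n| < 1/2 with pr n * z = w n + i.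
(2) For every prime pr r the number of the residues -w n (n in Ix) is ≤ card Ix < pr r, so some residue is different from all of them;
CRT gives i' < LL with ¬ pr r ∣ w n + i' for all n, r. Then |MM * (x n + i' / MM) - pr r * z| ≥ |w n + i' - pr r * z| - 1/2 ≥ 1/2.
-/

namespace MP_2fe79c_gt.L1

open MeasureTheory Set

private theorem crt_all (k q : ℕ) (c : Ix k q → ℕ) :
    ∃ i : ℕ, i < LL k q ∧ ∀ r, i ≡ c r [MOD pr k q r] := by
  classical
  have hs : ∀ r ∈ (Finset.univ : Finset (Ix k q)), pr k q r ≠ 0 :=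
    fun r _ => (pr_prime k q r).ne_zero
  have pp : Set.Pairwise (↑(Finset.univ : Finset (Ix k q)) : Set (Ix k q))
      (Function.onFun Nat.Coprime (pr k q)) := by
    intro r _ s _ hrs
    exact (Nat.coprime_primes (pr_prime k q r) (pr_prime k q s)).2
      (fun h => hrs (pr_inj k q h))
  refine ⟨(Nat.chineseRemainderOfFinset c (pr k q) Finset.univ hs pp : ℕ), ?_, ?_⟩
  · exact Nat.chineseRemainderOfFinset_lt_prod c (pr k q) hs pp
  · intro r
    exact (Nat.chineseRemainderOfFinset c (pr k q) Finset.univ hs pp).2 r (Finset.mem_univ r)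

private theorem res_cast {p : ℕ} (hp : 0 < p) (w : ℤ) :
    ((((-w) % (p : ℤ)).toNat : ℕ) : ℤ) = (-w) % (p : ℤ) :=
  Int.toNat_of_nonneg (Int.emod_nonneg _ (by exact_mod_cast hp.ne'))

private theorem dvd_iff_res {p : ℕ} (hp : 0 < p) (w : ℤ) (i : ℕ) :
    (p : ℤ) ∣ w + i ↔ i ≡ ((-w) % (p : ℤ)).toNat [MOD p] := by
  rw [← Int.natCast_modEq_iff, res_cast hp w]
  constructor
  · intro h
    have h1 : (i : ℤ) ≡ -w [ZMOD (p : ℤ)] := by
      rw [Int.modEq_iff_dvd]
      have : -w - (i : ℤ) = -(w + i) := by ring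
      rw [this]
      exact (dvd_neg).2 h
    exact h1.trans (Int.mod_modEq _ _).symm
  · intro h
    have h1 : (i : ℤ) ≡ -w [ZMOD (p : ℤ)] := h.trans (Int.mod_modEq _ _)
    rw [Int.modEq_iff_dvd] at h1
    have : w + (i : ℤ) = -(-w - i) := by ring
    rw [this]
    exact (dvd_neg).2 h1

theorem crt_div (k q : ℕ) (w : Ix k q → ℤ) :
    ∃ i : ℕ, i < LL k q ∧ ∀ n, (pr k q n : ℤ) ∣ w n + i := by
  obtain ⟨i, hi, h⟩ := crt_all k q (fun n => ((-w n) % (pr k q n : ℤ)).toNat)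
  exact ⟨i, hi, fun n => (dvd_iff_res (pr_prime k q n).pos (w n) i).2 (h n)⟩

theorem crt_ndiv (k q : ℕ) (w : Ix k q → ℤ) :
    ∃ i : ℕ, i < LL k q ∧ ∀ n r, ¬ (pr k q r : ℤ) ∣ w n + i := by
  classical
  have hc : ∀ r : Ix k q, ∃ c : ℕ, c < pr k q r ∧
      ∀ n : Ix k q, c ≠ ((-w n) % (pr k q r : ℤ)).toNat := by
    intro r
    have h1 : (Finset.univ.image (fun n : Ix k q => ((-w n) % (pr k q r : ℤ)).toNat)).card <
        (Finset.range (pr k q r)).card := by
      rw [Finset.card_range]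
      exact lt_of_le_of_lt Finset.card_image_le (by rw [Finset.card_univ]; exact pr_gt k q r)
    obtain ⟨c, hc1, hc2⟩ := Finset.exists_mem_notMem_of_card_lt_card h1
    refine ⟨c, Finset.mem_range.1 hc1, fun n hn => hc2 ?_⟩
    rw [hn]
    exact Finset.mem_image_of_mem _ (Finset.mem_univ n)
  choose c hc1 hc2 using hc
  obtain ⟨i, hi, h⟩ := crt_all k q c
  refine ⟨i, hi, fun n r hd => ?_⟩
  have h1 := (dvd_iff_res (pr_prime k q r).pos (w n) i).1 hd
  have h2 : c r ≡ ((-w n) % (pr k q r : ℤ)).toNat [MOD pr k q r] := (h r).symm.trans h1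
  have hlt : ((-w n) % (pr k q r : ℤ)).toNat < pr k q r := by
    have hpos : (0 : ℤ) < (pr k q r : ℤ) := by exact_mod_cast (pr_prime k q r).pos
    have := Int.emod_lt_of_pos (-w n) hpos
    rw [← res_cast (pr_prime k q r).pos (w n)] at this
    exact_mod_cast this
  exact hc2 r n (Nat.ModEq.eq_of_lt_of_lt h2 (hc1 r) hlt)

theorem pat {k q : ℕ} (hq : 1 ≤ q) (x : Ix k q → ℝ)
    (ht : ∀ n, ∀ z : ℤ, (MM k q : ℝ) * x n ≠ z + 1 / 2) :
    (∃ i : ℕ, i < LL k q ∧ ∀ n, x n + (i : ℝ) / MM k q ∈ U k q) ∧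
      ∃ i : ℕ, i < LL k q ∧ ∀ n, x n + (i : ℝ) / MM k q ∉ U k q := by
  have hM : (MM k q : ℝ) ≠ 0 := by exact_mod_cast (MM_pos hq).ne'
  have hmul : ∀ (n : Ix k q) (i : ℕ), (MM k q : ℝ) * (x n + (i : ℝ) / MM k q) =
      (MM k q : ℝ) * x n + i := by
    intro n i
    rw [mul_add, mul_div_cancel₀ _ hM]
  have hle : ∀ n, |(MM k q : ℝ) * x n - round ((MM k q : ℝ) * x n)| ≤ 1 / 2 :=
    fun n => abs_sub_round _
  have hlt : ∀ n, |(MM k q : ℝ) * x n - round ((MM k q : ℝ) * x n)| < 1 / 2 := by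
    intro n
    refine lt_of_le_of_ne (hle n) ?_
    intro h
    rcases (abs_eq (by norm_num : (0 : ℝ) ≤ 1 / 2)).1 h with h1 | h1
    · exact ht n (round ((MM k q : ℝ) * x n)) (by linarith)
    · exact ht n (round ((MM k q : ℝ) * x n) - 1) (by push_cast; linarith)
  constructor
  · obtain ⟨i, hi, h⟩ := crt_div k q (fun n => round ((MM k q : ℝ) * x n))
    refine ⟨i, hi, fun n => ?_⟩
    obtain ⟨z, hz⟩ := h n
    refine ⟨n, z, ?_⟩
    rw [hmul]
    have hz' : ((round ((MM k q : ℝ) * x n) : ℤ) : ℝ) + (i : ℝ) = (pr k q n : ℝ) * z := by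
      exact_mod_cast hz
    rw [← hz']
    have : (MM k q : ℝ) * x n + i - ((round ((MM k q : ℝ) * x n) : ℤ) + (i : ℝ)) =
        (MM k q : ℝ) * x n - round ((MM k q : ℝ) * x n) := by ring
    rw [this]
    exact hlt n
  · obtain ⟨i, hi, h⟩ := crt_ndiv k q (fun n => round ((MM k q : ℝ) * x n))
    refine ⟨i, hi, fun n hU => ?_⟩
    obtain ⟨r, z, hz⟩ := hU
    rw [hmul] at hz
    have h0 : round ((MM k q : ℝ) * x n) + (i : ℤ) - (pr k q r : ℤ) * z ≠ 0 := by
      intro h1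
      exact h n r ⟨z, by linarith⟩
    have h1 : (1 : ℤ) ≤ |round ((MM k q : ℝ) * x n) + (i : ℤ) - (pr k q r : ℤ) * z| :=
      Int.one_le_abs h0
    have h2 : (1 : ℝ) ≤ |((round ((MM k q : ℝ) * x n) : ℤ) : ℝ) + (i : ℝ) - (pr k q r : ℝ) * z| := by
      exact_mod_cast h1
    have h3 := hle n
    rw [abs_le] at h3
    rw [abs_lt] at hz
    rcases le_abs.1 h2 with h4 | h4
    · linarith [h3.1, hz.2]
    · linarith [h3.2, hz.1]

end MP_2fe79c_gt.L1
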