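import Mathlib

/-!
# A set on the line which is not equidecomposable with an interval: the objects
-/

namespace MP_2fe79c_gt.L1

open MeasureTheory Set

/-- The reals which are congruent modulo 1 to an element of `X`. -/
def per (X : Set ℝ) : Set ℝ := {y | ∃ j : ℤ, y + j ∈ X}

/-- Indicator function. -/
noncomputable def ind (X : Set ℝ) (x : ℝ) : ℝ := Set.indicator X (fun _ => (1 : ℝ)) x

/-- The symmetric periodic function of a set. -/
noncomputable def sy (X : Set ℝ) (y : ℝ) : ℝ := ind (per X) y + ind (per X) (-y)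

/-- `∑ i, n i * t i`. -/
noncomputable def dot {m N : ℕ} (t : Fin m → ℝ) (n : Fin m → Fin N) : ℝ :=
  ∑ i, ((n i : ℕ) : ℝ) * t i

theorem exists_primes (ι : Type) [Fintype ι] :
    ∃ p : ι → ℕ, (∀ r, Nat.Prime (p r)) ∧ Function.Injective p ∧ ∀ r, Fintype.card ι < p r := by
  classical
  let e := Fintype.equivFin ι
  refine ⟨fun r => Nat.nth Nat.Prime (Fintype.card ι + 1 + (e r : ℕ)), fun r => ?_, ?_, fun r => ?_⟩
  · exact Nat.nth_mem_of_infinite Nat.infinite_setOfPred_prime _
  · intro r s h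
    have := Nat.nth_injective Nat.infinite_setOfPred_prime h
    apply e.injective
    apply Fin.ext
    omega
  · have h1 : Fintype.card ι + 1 + (e r : ℕ) ≤
        Nat.nth Nat.Prime (Fintype.card ι + 1 + (e r : ℕ)) :=
      (Nat.nth_strictMono Nat.infinite_setOfPred_prime).le_apply
    change Fintype.card ι < Nat.nth Nat.Prime (Fintype.card ι + 1 + (e r : ℕ))
    omega

/-- The side of the box. -/
def nn (k q : ℕ) : ℕ := 8 * (k + 1) * q + 1

/-- The box. -/
abbrev Ix (k q : ℕ) : Type := Fin (k + 1) → Fin (nn k q)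

/-- The primes. -/
noncomputable def pr (k q : ℕ) : Ix k q → ℕ := Classical.choose (exists_primes (Ix k q))

theorem pr_prime (k q : ℕ) (r : Ix k q) : Nat.Prime (pr k q r) :=
  (Classical.choose_spec (exists_primes (Ix k q))).1 r

theorem pr_inj (k q : ℕ) : Function.Injective (pr k q) :=
  (Classical.choose_spec (exists_primes (Ix k q))).2.1

theorem pr_gt (k q : ℕ) (r : Ix k q) : Fintype.card (Ix k q) < pr k q r :=
  (Classical.choose_spec (exists_primes (Ix k q))).2.2 r

/-- Their product. -/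
noncomputable def LL (k q : ℕ) : ℕ := ∏ r, pr k q r

/-- A large number. -/
def RR (k q : ℕ) : ℕ := 100 * q * (nn k q) ^ (k + 1)

/-- The frequency. -/
noncomputable def MM (k q : ℕ) : ℕ := LL k q * q * RR k q

/-- The endpoints are `1 / qq k`. -/
noncomputable def qq : ℕ → ℕ
  | 0 => 4
  | k + 1 => 2 * MM k (qq k)

/-- The cells with numbers divisible by one of the primes. -/
def U (k q : ℕ) : Set ℝ :=
  {x | ∃ r : Ix k q, ∃ z : ℤ, |(MM k q : ℝ) * x - (pr k q r : ℝ) * z| < 1 / 2}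

/-- The set. -/
def A0 : Set ℝ := ⋃ k : ℕ, Ioo (1 / (qq (k + 1) : ℝ)) (1 / (qq k : ℝ)) ∩ U k (qq k)

/-- The points `y` and `y'` lie in the same gap of the multiples of `1 / q`. -/
def SameGap (q : ℕ) (y y' : ℝ) : Prop :=
  ∃ c : ℤ, (c : ℝ) < q * y ∧ q * y < c + 1 ∧ (c : ℝ) < q * y' ∧ q * y' < c + 1

/-- The points near a multiple of `1 / q` or near `±b` modulo 1. -/
def Bad (q : ℕ) (b l : ℝ) : Set ℝ :=
  {y | ∃ c : ℤ, |y - c / q| ≤ 2 * l} ∪ {y | ∃ j : ℤ, |y + j - b| ≤ 2 * l} ∪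
    {y | ∃ j : ℤ, |y + j + b| ≤ 2 * l}

end MP_2fe79c_gt.L1
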