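import Pool.Agent.Lib.MP_2fe79c_gt.L1.Basic

/-!
# The frontier of the set
-/

namespace MP_2fe79c_gt.L1

open MeasureTheory Set

private theorem Fro_qpos (k : ℕ) : (0 : ℝ) < qq k := by
  have := four_le_qq k
  exact_mod_cast (by omega : 0 < qq k)

private theorem Fro_le {i k : ℕ} (h : i ≤ k) : (1 : ℝ) / qq k ≤ 1 / qq i := by
  have h1 : qq i ≤ qq k := qq_strictMono.monotone h
  have h2 : (qq i : ℝ) ≤ qq k := by exact_mod_cast h1
  exact one_div_le_one_div_of_le (Fro_qpos i) h2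

private theorem Fro_zero : qq 0 = 4 := by
  simp [qq]

private theorem Fro_unique {j k : ℕ} {y : ℝ}
    (hj : y ∈ Ioo (1 / (qq (j + 1) : ℝ)) (1 / (qq j : ℝ)))
    (hk : y ∈ Ioo (1 / (qq (k + 1) : ℝ)) (1 / (qq k : ℝ))) : j = k := by
  rcases lt_trichotomy j k with h | h | h
  · have := Fro_le (i := j + 1) (k := k) h
    exact absurd (lt_of_lt_of_le hk.2 this) (not_lt.2 hj.1.le)
  · exact h
  · have := Fro_le (i := k + 1) (k := j) h
    exact absurd (lt_of_lt_of_le hj.2 this) (not_lt.2 hk.1.le)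

theorem A0_open : IsOpen A0 := by
  unfold A0
  refine isOpen_iUnion fun k => isOpen_Ioo.inter ?_
  have h : U k (qq k) = ⋃ r : Ix k (qq k), ⋃ z : ℤ,
      {x : ℝ | |(MM k (qq k) : ℝ) * x - (pr k (qq k) r : ℝ) * z| < 1 / 2} := by
    ext x
    simp only [U, mem_iUnion, Set.mem_ofPred_eq]
  rw [h]
  refine isOpen_iUnion fun r => isOpen_iUnion fun z => ?_
  exact isOpen_lt (by fun_prop) continuous_const

private theorem Fro_succ (k : ℕ) : qq (k + 1) = 2 * MM k (qq k) := by rw [qq]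

private theorem Fro_ne (q : ℕ) (hq : 4 ≤ q) :
    ∃ x : ℝ, 1 / ((2 * MM 0 q : ℕ) : ℝ) < x ∧ x < 1 / 4 ∧ x ∈ U 0 q := by
  have hnn : 0 < nn 0 q := by unfold nn; omega
  let r : Ix 0 q := fun _ => ⟨0, hnn⟩
  obtain ⟨p, hp⟩ : ∃ p, p = pr 0 q r := ⟨_, rfl⟩
  have hp2 : 2 ≤ p := by rw [hp]; exact (pr_prime 0 q r).two_le
  have hpL : p ∣ LL 0 q := by rw [hp]; exact Finset.dvd_prod_of_mem _ (Finset.mem_univ r)
  have hpL' : p ≤ LL 0 q := Nat.le_of_dvd (LL_pos _ _) hpL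
  have hR : 1 ≤ RR 0 q := by
    unfold RR
    exact Nat.mul_pos (Nat.mul_pos (by norm_num) (by omega)) (Nat.pow_pos hnn)
  have hR' : 2 ≤ RR 0 q := by
    unfold RR
    have h1 : 1 ≤ nn 0 q ^ (0 + 1) := Nat.pow_pos hnn
    calc 2 ≤ 100 * q * 1 := by omega
      _ ≤ 100 * q * nn 0 q ^ (0 + 1) := Nat.mul_le_mul_left _ h1
  obtain ⟨M, hM⟩ : ∃ M, M = MM 0 q := ⟨_, rfl⟩
  have hM4 : 4 * p < M := by
    have h1 : p * (4 * 2) ≤ LL 0 q * (q * RR 0 q) :=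
      Nat.mul_le_mul hpL' (Nat.mul_le_mul hq hR')
    have h2 : M = LL 0 q * (q * RR 0 q) := by rw [hM, MM, mul_assoc]
    omega
  have hMpos : (0 : ℝ) < M := by exact_mod_cast (by omega : 0 < M)
  refine ⟨(p : ℝ) / M, ?_, ?_, ?_⟩
  · rw [← hM]
    push_cast
    rw [div_lt_div_iff₀ (by positivity) hMpos]
    have : (2 : ℝ) ≤ p := by exact_mod_cast hp2
    nlinarith
  · rw [div_lt_div_iff₀ hMpos (by norm_num)]
    have : (4 : ℝ) * p < M := by exact_mod_cast hM4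
    linarith
  · refine ⟨r, 1, ?_⟩
    have : (M : ℝ) * ((p : ℝ) / M) - (p : ℝ) * ((1 : ℤ) : ℝ) = 0 := by
      rw [mul_div_cancel₀ _ hMpos.ne']
      push_cast
      ring
    rw [← hM, ← hp, this]
    norm_num

theorem A0_ne : A0.Nonempty := by
  obtain ⟨x, h1, h2, h3⟩ := Fro_ne (qq 0) (four_le_qq 0)
  refine ⟨x, mem_iUnion.2 ⟨0, ⟨?_, ?_⟩, h3⟩⟩
  · rw [Fro_succ 0]
    exact h1
  · rw [Fro_zero]
    exact_mod_cast h2

private theorem Fro_sub : A0 ⊆ Icc (0 : ℝ) (1 / 4) := by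
  intro x hx
  obtain ⟨k, hk, -⟩ := mem_iUnion.1 hx
  refine ⟨le_trans (by have := Fro_qpos (k + 1); positivity) hk.1.le, le_trans hk.2.le ?_⟩
  have := Fro_le (i := 0) (k := k) (Nat.zero_le k)
  rw [Fro_zero] at this
  exact_mod_cast this

private theorem Fro_closure : closure A0 ⊆ Icc (0 : ℝ) (1 / 4) :=
  closure_minimal Fro_sub isClosed_Icc

private theorem Fro_key {K : ℕ} {x : ℝ} (hx : x ∈ frontier A0) (hK : 1 / (qq (K + 1) : ℝ) < x) :
    ∃ n : ℤ, x * qq (K + 1) = n := by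
  by_contra hcon
  have hcl : x ∈ closure A0 := frontier_subset_closure hx
  have hnot : x ∉ A0 := by
    rw [frontier, A0_open.interior_eq] at hx
    exact hx.2
  -- x is not a reciprocal
  have hne : ∀ i ≤ K + 1, x ≠ 1 / (qq i : ℝ) := by
    intro i hi h
    obtain ⟨c, hc⟩ := qq_dvd hi
    apply hcon
    refine ⟨(c : ℤ), ?_⟩
    have := Fro_qpos i
    rw [h, hc]
    push_cast
    field_simp
  have hlt : x < 1 / (qq 0 : ℝ) := by
    refine lt_of_le_of_ne ?_ (hne 0 (Nat.zero_le _))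
    rw [Fro_zero]
    exact_mod_cast (Fro_closure hcl).2
  -- the interval of x
  have hex : ∃ k, 1 / (qq (k + 1) : ℝ) < x := ⟨K, hK⟩
  classical
  obtain ⟨k, hkK, hk1, hk2⟩ : ∃ k ≤ K, 1 / (qq (k + 1) : ℝ) < x ∧ x < 1 / (qq k : ℝ) := by
    refine ⟨Nat.find hex, Nat.find_min' hex hK, Nat.find_spec hex, ?_⟩
    rcases Nat.eq_zero_or_pos (Nat.find hex) with h | h
    · rw [h]; exact hlt
    · have h1 := Nat.find_min hex (m := Nat.find hex - 1) (by omega)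
      have h2 : Nat.find hex - 1 + 1 = Nat.find hex := by omega
      rw [h2] at h1
      exact lt_of_le_of_ne (not_lt.1 h1) (hne _ (le_trans (Nat.find_min' hex hK) (Nat.le_succ K)))
  set M : ℝ := (MM k (qq k) : ℝ) with hM
  -- the nearest integer
  set n : ℤ := ⌊M * x + 1 / 2⌋ with hn
  have hn1 : (n : ℝ) ≤ M * x + 1 / 2 := Int.floor_le _
  have hn2 : M * x + 1 / 2 < n + 1 := Int.lt_floor_add_one _
  have hn3 : (n : ℝ) ≠ M * x + 1 / 2 := by
    intro h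
    obtain ⟨c, hc⟩ := two_MM_dvd (i := k) (k := K + 1) (by omega)
    apply hcon
    refine ⟨(2 * n - 1) * c, ?_⟩
    rw [hc]
    push_cast
    rw [h]
    ring
  have hn4 : |M * x - n| < 1 / 2 := by
    have : (n : ℝ) < M * x + 1 / 2 := lt_of_le_of_ne hn1 hn3
    rw [abs_lt]
    constructor <;> linarith
  -- the neighbourhood
  have hopen : IsOpen (Ioo (1 / (qq (k + 1) : ℝ)) (1 / (qq k : ℝ)) ∩ {y : ℝ | |M * y - n| < 1 / 2}) :=
    isOpen_Ioo.inter (isOpen_lt (by fun_prop) continuous_const)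
  obtain ⟨y, ⟨hy1, hy2⟩, hyA⟩ := mem_closure_iff.1 hcl _ hopen ⟨⟨hk1, hk2⟩, hn4⟩
  obtain ⟨j, hj1, hj2⟩ := mem_iUnion.1 hyA
  have hjk : j = k := Fro_unique hj1 hy1
  subst hjk
  obtain ⟨r, z, hrz⟩ := hj2
  have hy2' : |M * y - n| < 1 / 2 := hy2
  have hrz' : |M * y - (pr j (qq j) r : ℝ) * z| < 1 / 2 := hrz
  have hz : n = (pr j (qq j) r : ℤ) * z := by
    have h1 : |((n - (pr j (qq j) r : ℤ) * z : ℤ) : ℝ)| < 1 := by
      push_cast
      have h2 := abs_lt.1 hy2'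
      have h3 := abs_lt.1 hrz'
      rw [abs_lt]
      constructor <;> linarith
    have h4 : |n - (pr j (qq j) r : ℤ) * z| < 1 := by exact_mod_cast h1
    have h5 := Int.abs_lt_one_iff.1 h4
    omega
  apply hnot
  refine mem_iUnion.2 ⟨j, ⟨hk1, hk2⟩, r, z, ?_⟩
  have h6 : (n : ℝ) = (pr j (qq j) r : ℝ) * z := by
    rw [hz]
    push_cast
    ring
  rw [← h6]
  exact hn4

private theorem Fro_exists {ε : ℝ} (hε : 0 < ε) : ∃ K : ℕ, 1 / (qq (K + 1) : ℝ) < ε := by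
  obtain ⟨K, hK⟩ := exists_nat_gt (1 / ε)
  refine ⟨K, ?_⟩
  have h1 : K + 1 ≤ qq (K + 1) := qq_strictMono.le_apply
  have h2 : ((K + 1 : ℕ) : ℝ) ≤ qq (K + 1) := by exact_mod_cast h1
  push_cast at h2
  rw [div_lt_iff₀ (Fro_qpos _)]
  rw [div_lt_iff₀ hε] at hK
  nlinarith

theorem A0_frontier : frontier A0 ⊆ range ((↑) : ℚ → ℝ) := by
  intro x hx
  have h0 := (Fro_closure (frontier_subset_closure hx)).1
  rcases h0.eq_or_lt with h | h
  · exact ⟨0, by simp [← h]⟩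
  · obtain ⟨K, hK⟩ := Fro_exists h
    obtain ⟨n, hn⟩ := Fro_key hx hK
    refine ⟨(n : ℚ) / (qq (K + 1) : ℚ), ?_⟩
    push_cast
    rw [div_eq_iff (Fro_qpos _).ne', hn]

theorem A0_frontier_fin {ε : ℝ} (hε : 0 < ε) : (frontier A0 ∩ Ici ε).Finite := by
  obtain ⟨K, hK⟩ := Fro_exists hε
  refine Set.Finite.subset ((Set.finite_Icc (0 : ℤ) (qq (K + 1))).image
    (fun n : ℤ => (n : ℝ) / qq (K + 1))) ?_
  rintro x ⟨hx, hxε⟩
  have hxε' : ε ≤ x := hxε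
  obtain ⟨n, hn⟩ := Fro_key hx (lt_of_lt_of_le hK hxε')
  have hq := Fro_qpos (K + 1)
  have hx1 : x ≤ 1 / 4 := (Fro_closure (frontier_subset_closure hx)).2
  refine ⟨n, ⟨?_, ?_⟩, ?_⟩
  · have : (0 : ℝ) ≤ n := by
      rw [← hn]
      exact mul_nonneg (by linarith) hq.le
    exact_mod_cast this
  · have : (n : ℝ) ≤ qq (K + 1) := by
      rw [← hn]
      nlinarith
    exact_mod_cast this
  · show (n : ℝ) / qq (K + 1) = x
    rw [div_eq_iff hq.ne', hn]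

end MP_2fe79c_gt.L1
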