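import Pool.Agent.Lib.MP_2fe79c_gt.L1.Basic

/-!
# The local structure of the set
-/

namespace MP_2fe79c_gt.L1

open MeasureTheory Set

private theorem Grid_qpos (k : ℕ) : (4 : ℝ) ≤ qq k := by exact_mod_cast four_le_qq k

private theorem Grid_mem (i : ℕ) (x : ℝ) : x ∈ Ioo (1 / (qq (i + 1) : ℝ)) (1 / (qq i : ℝ)) ↔
    1 < (qq (i + 1) : ℝ) * x ∧ (qq i : ℝ) * x < 1 := by
  have h1 : (0 : ℝ) < qq (i + 1) := by linarith [Grid_qpos (i + 1)]
  have h2 : (0 : ℝ) < qq i := by linarith [Grid_qpos i]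
  rw [mem_Ioo, div_lt_iff₀ h1, lt_div_iff₀ h2, mul_comm x, mul_comm x]

theorem A0_sub : A0 ⊆ Ioo 0 (1 / 4) := by
  intro x hx
  obtain ⟨k, ⟨h1, h2⟩, _⟩ := mem_iUnion.1 hx
  have h3 : (0 : ℝ) < qq (k + 1) := by linarith [Grid_qpos (k + 1)]
  have h4 : 1 / (qq k : ℝ) ≤ 1 / 4 := one_div_le_one_div_of_le (by norm_num) (Grid_qpos k)
  exact ⟨lt_trans (by positivity) h1, lt_of_lt_of_le h2 h4⟩

theorem U_neg {k q : ℕ} {y : ℝ} : -y ∈ U k q ↔ y ∈ U k q := by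
  have key : ∀ x : ℝ, x ∈ U k q → -x ∈ U k q := by
    rintro x ⟨r, z, h⟩
    refine ⟨r, -z, ?_⟩
    have e : (MM k q : ℝ) * -x - (pr k q r : ℝ) * ((-z : ℤ) : ℝ) =
        -((MM k q : ℝ) * x - (pr k q r : ℝ) * z) := by push_cast; ring
    rw [e, abs_neg]
    exact h
  constructor
  · intro h
    have := key _ h
    rwa [neg_neg] at this
  · exact key y

theorem U_add {k q : ℕ} {y : ℝ} (j : ℤ) : y + j ∈ U k q ↔ y ∈ U k q := by
  have key : ∀ (x : ℝ) (j : ℤ), x ∈ U k q → x + j ∈ U k q := by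
    rintro x j ⟨r, z, h⟩
    obtain ⟨d, hd⟩ := pr_dvd_MM k q r
    refine ⟨r, z + d * j, ?_⟩
    have e : (MM k q : ℝ) * (x + j) - (pr k q r : ℝ) * ((z + d * j : ℤ) : ℝ) =
        (MM k q : ℝ) * x - (pr k q r : ℝ) * z := by
      rw [hd]; push_cast; ring
    rw [e]
    exact h
  constructor
  · intro h
    have := key _ (-j) h
    have e : y + (j : ℝ) + ((-j : ℤ) : ℝ) = y := by push_cast; ring
    rwa [e] at this
  · exact key y j

private theorem Grid_int_eq {a b : ℤ} {y : ℝ} (ha : y + a ∈ Ioo (0 : ℝ) (1 / 4))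
    (hb : y + b ∈ Ioo (0 : ℝ) (1 / 4)) : a = b := by
  obtain ⟨a1, a2⟩ := ha
  obtain ⟨b1, b2⟩ := hb
  have h1 : (a : ℝ) - b < 1 := by linarith
  have h2 : (b : ℝ) - a < 1 := by linarith
  have h3 : a - b < 1 := by exact_mod_cast h1
  have h4 : b - a < 1 := by exact_mod_cast h2
  omega

private theorem Grid_idx {i k : ℕ} {x : ℝ} (hi : x ∈ Ioo (1 / (qq (i + 1) : ℝ)) (1 / (qq i : ℝ)))
    (hk : x ∈ Ioo (1 / (qq (k + 1) : ℝ)) (1 / (qq k : ℝ))) : i ≤ k := by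
  by_contra hlt
  have h1 : qq (k + 1) ≤ qq i := qq_strictMono.monotone (by omega)
  have h2 : (qq (k + 1) : ℝ) ≤ qq i := by exact_mod_cast h1
  have h3 : (0 : ℝ) < qq (k + 1) := by linarith [Grid_qpos (k + 1)]
  have h4 : 1 / (qq i : ℝ) ≤ 1 / (qq (k + 1) : ℝ) := one_div_le_one_div_of_le h3 h2
  linarith [hi.2, hk.1]

private theorem Grid_Ioo_sub (k : ℕ) :
    Ioo (1 / (qq (k + 1) : ℝ)) (1 / (qq k : ℝ)) ⊆ Ioo 0 (1 / 4) := by
  rintro x ⟨h1, h2⟩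
  have h3 : (0 : ℝ) < qq (k + 1) := by linarith [Grid_qpos (k + 1)]
  have h4 : 1 / (qq k : ℝ) ≤ 1 / 4 := one_div_le_one_div_of_le (by norm_num) (Grid_qpos k)
  exact ⟨lt_trans (by positivity) h1, lt_of_lt_of_le h2 h4⟩

theorem grid_near {k : ℕ} {y : ℝ}
    (h : y ∈ per (Ioo (1 / (qq (k + 1) : ℝ)) (1 / (qq k : ℝ)))) :
    (y ∈ per A0 ↔ y ∈ U k (qq k)) ∧ -y ∉ per A0 := by
  obtain ⟨j, hj⟩ := h
  refine ⟨⟨?_, ?_⟩, ?_⟩
  · rintro ⟨j', hj'⟩
    have e : j' = j := Grid_int_eq (A0_sub hj') (Grid_Ioo_sub k hj)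
    subst e
    obtain ⟨i, hi, hU⟩ := mem_iUnion.1 hj'
    have hik : i = k := le_antisymm (Grid_idx hi hj) (Grid_idx hj hi)
    subst hik
    exact (U_add j').1 hU
  · intro hU
    exact ⟨j, mem_iUnion.2 ⟨k, hj, (U_add j).2 hU⟩⟩
  · rintro ⟨j', hj'⟩
    obtain ⟨a1, a2⟩ := A0_sub hj'
    obtain ⟨b1, b2⟩ := Grid_Ioo_sub k hj
    have h1 : (0 : ℝ) < ((j + j' : ℤ) : ℝ) := by push_cast; linarith
    have h2 : ((j + j' : ℤ) : ℝ) < 1 := by push_cast; linarith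
    have h3 : 0 < j + j' := by exact_mod_cast h1
    have h4 : j + j' < 1 := by exact_mod_cast h2
    omega

private theorem Grid_side {d e q : ℕ} (hq : q = d * e) (hq0 : 0 < q) {y y' : ℝ}
    (h : SameGap q y y') (a j : ℤ) :
    ((a : ℝ) < d * (y + j) → (a : ℝ) < d * (y' + j)) ∧
      ((d : ℝ) * (y + j) < a → (d : ℝ) * (y' + j) < a) := by
  obtain ⟨c, h1, h2, h3, h4⟩ := h
  have he : 0 < e := Nat.pos_of_ne_zero (by rintro rfl; simp at hq; omega)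
  have he' : (0 : ℝ) < e := by exact_mod_cast he
  have hqr : (q : ℝ) = d * e := by rw [hq]; push_cast; ring
  constructor
  · intro ha
    have k1 : (a : ℝ) * e < (d * (y + j)) * e := mul_lt_mul_of_pos_right ha he'
    have k2 : ((a * e - q * j : ℤ) : ℝ) < ((c + 1 : ℤ) : ℝ) := by
      push_cast
      rw [hqr] at h2 ⊢
      nlinarith
    have k3 : a * e - q * j ≤ c := by
      have : a * e - q * j < c + 1 := by exact_mod_cast k2
      omega
    have k4 : ((a * e - q * j : ℤ) : ℝ) ≤ (c : ℝ) := by exact_mod_cast k3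
    push_cast at k4
    have k5 : (a : ℝ) * e < (d * (y' + j)) * e := by
      rw [hqr] at h3 k4
      nlinarith
    exact lt_of_mul_lt_mul_right k5 he'.le
  · intro ha
    have k1 : ((d : ℝ) * (y + j)) * e < a * e := mul_lt_mul_of_pos_right ha he'
    have k2 : (c : ℝ) < ((a * e - q * j : ℤ) : ℝ) := by
      push_cast
      rw [hqr] at h1 ⊢
      nlinarith
    have k3 : c + 1 ≤ a * e - q * j := by
      have : c < a * e - q * j := by exact_mod_cast k2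
      omega
    have k4 : ((c + 1 : ℤ) : ℝ) ≤ ((a * e - q * j : ℤ) : ℝ) := by exact_mod_cast k3
    push_cast at k4
    have k5 : ((d : ℝ) * (y' + j)) * e < a * e := by
      rw [hqr] at h4 k4
      nlinarith
    exact lt_of_mul_lt_mul_right k5 he'.le

private theorem Grid_symm {q : ℕ} {y y' : ℝ} (h : SameGap q y y') : SameGap q y' y := by
  obtain ⟨c, h1, h2, h3, h4⟩ := h
  exact ⟨c, h3, h4, h1, h2⟩

private theorem Grid_Ioo_iff {q : ℕ} (hq : 0 < q) (x : ℝ) :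
    x ∈ Ioo (-(1 / (q : ℝ))) (1 / (q : ℝ)) ↔ ((-1 : ℤ) : ℝ) < q * x ∧ (q : ℝ) * x < ((1 : ℤ) : ℝ) := by
  have hq' : (0 : ℝ) < q := by exact_mod_cast hq
  rw [mem_Ioo, lt_div_iff₀ hq', mul_comm x, ← neg_div, div_lt_iff₀ hq', mul_comm x]
  push_cast
  rfl

private theorem Grid_far_notin {q : ℕ} (hq : 0 < q) {y y' : ℝ} (h : SameGap q y y')
    (hf : y ∉ per (Ioo (-(1 / (q : ℝ))) (1 / (q : ℝ)))) :
    y' ∉ per (Ioo (-(1 / (q : ℝ))) (1 / (q : ℝ))) := by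
  rintro ⟨j, hj⟩
  apply hf
  refine ⟨j, ?_⟩
  rw [Grid_Ioo_iff hq] at hj ⊢
  have s1 := Grid_side (d := q) (e := 1) (by simp) hq (Grid_symm h) (-1) j
  have s2 := Grid_side (d := q) (e := 1) (by simp) hq (Grid_symm h) 1 j
  exact ⟨s1.1 hj.1, s2.2 hj.2⟩

private theorem Grid_far_imp {k : ℕ} {y y' : ℝ} (h : SameGap (qq k) y y')
    (hf : y ∉ per (Ioo (-(1 / (qq k : ℝ))) (1 / (qq k : ℝ)))) (hy : y ∈ per A0) :
    y' ∈ per A0 := by
  obtain ⟨j, hj⟩ := hy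
  obtain ⟨i, hi, r, z, hU⟩ := mem_iUnion.1 hj
  have hq4 := four_le_qq k
  have hq0 : 0 < qq k := by omega
  have hq' : (0 : ℝ) < qq k := by exact_mod_cast hq0
  have h0 := A0_sub hj
  have hik : i < k := by
    by_contra hle
    apply hf
    refine ⟨j, ?_, ?_⟩
    · have : 0 < 1 / (qq k : ℝ) := by positivity
      linarith [h0.1]
    · have h1 : qq k ≤ qq i := qq_strictMono.monotone (by omega)
      have h2 : (qq k : ℝ) ≤ qq i := by exact_mod_cast h1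
      have h4 : 1 / (qq i : ℝ) ≤ 1 / (qq k : ℝ) := one_div_le_one_div_of_le hq' h2
      linarith [hi.2]
  obtain ⟨e1, he1⟩ := qq_dvd (i := i + 1) (k := k) (by omega)
  obtain ⟨e2, he2⟩ := qq_dvd (i := i) (k := k) hik.le
  obtain ⟨e3, he3⟩ := two_MM_dvd hik
  refine ⟨j, mem_iUnion.2 ⟨i, ?_, r, z, ?_⟩⟩
  · rw [Grid_mem] at hi ⊢
    have s1 := (Grid_side he1 hq0 h 1 j).1
    have s2 := (Grid_side he2 hq0 h 1 j).2
    push_cast at s1 s2
    exact ⟨s1 hi.1, s2 hi.2⟩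
  · rw [abs_lt] at hU ⊢
    have s1 := (Grid_side he3 hq0 h (2 * (pr i (qq i) r : ℤ) * z - 1) j).1
    have s2 := (Grid_side he3 hq0 h (2 * (pr i (qq i) r : ℤ) * z + 1) j).2
    push_cast at s1 s2
    constructor
    · have := s1 (by linarith [hU.1])
      linarith
    · have := s2 (by linarith [hU.2])
      linarith

theorem grid_far {k : ℕ} {y y' : ℝ} (h : SameGap (qq k) y y')
    (hf : y ∉ per (Ioo (-(1 / (qq k : ℝ))) (1 / (qq k : ℝ)))) :
    y ∈ per A0 ↔ y' ∈ per A0 := by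
  have hq4 := four_le_qq k
  exact ⟨Grid_far_imp h hf,
    Grid_far_imp (Grid_symm h) (Grid_far_notin (by omega) h hf)⟩

end MP_2fe79c_gt.L1
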