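import Pool.Agent.Lib.MP_2fe79c_gt.L1.Defs

/-!
# Reduction to exact partitions up to a null set
-/

namespace MP_2fe79c_gt.L1

open MeasureTheory Set

theorem iso_real (g : ℝ ≃ᵢ ℝ) :
    ∃ s t : ℝ, (s = 1 ∨ s = -1) ∧ ∀ x, g x = s * x + t := by
  have e : ∀ x y, (g x - g y) ^ 2 = (x - y) ^ 2 := by
    intro x y
    have := g.dist_eq x y
    rw [Real.dist_eq, Real.dist_eq] at this
    rw [← sq_abs, this, sq_abs]
  have hs : (g 1 - g 0) ^ 2 = 1 := by rw [e 1 0]; norm_num
  refine ⟨g 1 - g 0, g 0, ?_, fun x => ?_⟩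
  · have : (g 1 - g 0 - 1) * (g 1 - g 0 + 1) = 0 := by linear_combination hs
    rcases mul_eq_zero.1 this with h | h
    · left; linarith
    · right; linarith
  · have h1 := e x 0
    have h2 := e x 1
    have h3 : (g x - g 0) * (g 1 - g 0) = x := by
      linear_combination (1 / 2) * h1 - (1 / 2) * h2 + (1 / 2) * hs
    linear_combination (g 1 - g 0) * h3 - (g x - g 0) * hs

private theorem core {m : ℕ} {A : Set ℝ} (hA : A ⊆ Ioo 0 (1 / 2)) (Q : Fin m → Set ℝ)
    (hQ : ∀ i, Q i ⊆ A) (hd : Pairwise (fun i j => Disjoint (Q i) (Q j))) (y : ℝ)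
    (hy : ∀ j : ℤ, y + j ∈ A → ∃ i, y + j ∈ Q i) :
    ind (per A) y = ∑ i, ind (per (Q i)) y := by
  classical
  by_cases h : y ∈ per A
  · obtain ⟨j, hj⟩ := h
    obtain ⟨i, hi⟩ := hy j hj
    have h1 : ind (per A) y = 1 := Set.indicator_of_mem (show y ∈ per A from ⟨j, hj⟩) _
    rw [h1, Finset.sum_eq_single i]
    · symm
      exact Set.indicator_of_mem (show y ∈ per (Q i) from ⟨j, hi⟩) _
    · intro i' _ hne
      apply Set.indicator_of_notMem
      rintro ⟨j', hj'⟩
      have hA' := hA (hQ i' hj')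
      have hA0 := hA hj
      have : j' = j := by
        have h2 : ((j' - j : ℤ) : ℝ) < 1 := by push_cast; linarith [hA'.2, hA0.1]
        have h3 : ((-1 : ℤ) : ℝ) < ((j' - j : ℤ) : ℝ) := by push_cast; linarith [hA'.1, hA0.2]
        have h4 : j' - j < 1 := by exact_mod_cast h2
        have h5 : -1 < j' - j := by exact_mod_cast h3
        omega
      subst this
      exact Set.disjoint_left.1 (hd hne) hj' hi
    · intro h
      exact absurd (Finset.mem_univ i) h
  · have h1 : ind (per A) y = 0 := Set.indicator_of_notMem h _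
    rw [h1]
    symm
    apply Finset.sum_eq_zero
    intro i _
    apply Set.indicator_of_notMem
    rintro ⟨j, hj⟩
    exact h ⟨j, hQ i hj⟩

private theorem vol_image (g : ℝ ≃ᵢ ℝ) (S : Set ℝ) : volume (g '' S) = volume S := by
  rw [← MeasureTheory.hausdorffMeasure_real]
  exact IsometryEquiv.hausdorffMeasure_image g 1 S

private theorem vol_preimage (g : ℝ ≃ᵢ ℝ) (S : Set ℝ) : volume (g ⁻¹' S) = volume S := by
  rw [← MeasureTheory.hausdorffMeasure_real]
  exact IsometryEquiv.hausdorffMeasure_preimage g 1 S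

private theorem null_per (E : Set ℝ) (hE : volume E = 0) :
    volume {y : ℝ | ∃ j : ℤ, y + j ∈ E ∨ -y + j ∈ E} = 0 := by
  have : {y : ℝ | ∃ j : ℤ, y + j ∈ E ∨ -y + j ∈ E} =
      ⋃ j : ℤ, (((fun y : ℝ => y + (j : ℝ)) ⁻¹' E) ∪
        (Neg.neg ⁻¹' ((fun y : ℝ => y + (j : ℝ)) ⁻¹' E))) := by
    ext y
    simp only [Set.mem_ofPred_eq, mem_iUnion, mem_union, mem_preimage]
  rw [this, measure_iUnion_null_iff]
  intro j
  have h1 : volume ((fun y : ℝ => y + (j : ℝ)) ⁻¹' E) = 0 := by
    rw [measure_preimage_add_right, hE]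
  apply measure_union_null h1
  rw [Measure.measure_preimage_neg, h1]

theorem reduce {m : ℕ} {A B : Set ℝ} (hA : A ⊆ Ioo 0 (1 / 2)) (hB : B ⊆ Ioo 0 (1 / 2))
    (P : Fin m → Set ℝ) (g : Fin m → (ℝ ≃ᵢ ℝ))
    (h1 : Pairwise (fun i j => Disjoint (P i) (P j)))
    (h2 : volume (symmDiff A (⋃ i, P i)) = 0)
    (h3 : Pairwise (fun i j => Disjoint (g i '' P i) (g j '' P j)))
    (h4 : volume (symmDiff B (⋃ i, g i '' P i)) = 0) :
    ∃ (P' : Fin m → Set ℝ) (s t : Fin m → ℝ) (Z : Set ℝ), (∀ i, s i = 1 ∨ s i = -1) ∧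
      volume Z = 0 ∧ (∀ y, y ∉ Z → -y ∉ Z) ∧
      (∀ y, y ∉ Z → ind (per A) y = ∑ i, ind (per (P' i)) y) ∧
      ∀ y, y ∉ Z → ind (per B) y = ∑ i, ind (per (P' i)) (s i * (y - t i)) := by
  classical
  choose s t hs hg using fun i => iso_real (g i)
  set P' : Fin m → Set ℝ := fun i => P i ∩ A ∩ (g i) ⁻¹' B with hP'
  set E : Set ℝ := (A \ ⋃ i, P i) ∪ (⋃ i, (g i) ⁻¹' (g i '' P i \ B)) ∪
    ((B \ ⋃ i, g i '' P i) ∪ ⋃ i, g i '' (P i \ A)) with hEdef
  have hE : volume E = 0 := by
    apply measure_union_null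
    · apply measure_union_null
      · exact measure_mono_null (fun x hx => Or.inl hx) h2
      · rw [measure_iUnion_null_iff]
        intro i
        rw [vol_preimage]
        refine measure_mono_null (fun x hx => Or.inr ⟨?_, hx.2⟩) h4
        exact mem_iUnion.2 ⟨i, hx.1⟩
    · apply measure_union_null
      · exact measure_mono_null (fun x hx => Or.inl hx) h4
      · rw [measure_iUnion_null_iff]
        intro i
        rw [vol_image]
        refine measure_mono_null (fun x hx => Or.inr ⟨?_, hx.2⟩) h2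
        exact mem_iUnion.2 ⟨i, hx.1⟩
  refine ⟨P', s, t, {y : ℝ | ∃ j : ℤ, y + j ∈ E ∨ -y + j ∈ E}, hs, null_per E hE, ?_, ?_, ?_⟩
  · rintro y hy ⟨j, hj⟩
    apply hy
    rw [neg_neg] at hj
    exact ⟨j, hj.symm⟩
  · intro y hy
    apply core hA P' (fun i x hx => hx.1.2)
    · intro i j hij
      exact Set.disjoint_of_subset (fun x hx => hx.1.1) (fun x hx => hx.1.1) (h1 hij)
    · intro j hj
      have hyE : y + j ∉ E := fun h => hy ⟨j, Or.inl h⟩
      have hP : y + j ∈ ⋃ i, P i := by
        by_contra hn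
        exact hyE (Or.inl (Or.inl ⟨hj, hn⟩))
      obtain ⟨i, hi⟩ := mem_iUnion.1 hP
      refine ⟨i, ⟨hi, hj⟩, ?_⟩
      by_contra hn
      exact hyE (Or.inl (Or.inr (mem_iUnion.2 ⟨i, ⟨y + j, hi, rfl⟩, hn⟩)))
  · intro y hy
    have key : ∀ i (X : Set ℝ) (u : ℝ), u ∈ g i '' X ↔ s i * (u - t i) ∈ X := by
      intro i X u
      have hss : s i * s i = 1 := by
        rcases hs i with h | h <;> rw [h] <;> norm_num
      constructor
      · rintro ⟨x, hx, rfl⟩
        rw [hg i x]
        have : s i * (s i * x + t i - t i) = x := by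
          linear_combination x * hss
        rw [this]
        exact hx
      · intro hx
        refine ⟨_, hx, ?_⟩
        rw [hg i]
        linear_combination (u - t i) * hss
    have key2 : ∀ i, ind (per (P' i)) (s i * (y - t i)) = ind (per (g i '' P' i)) y := by
      intro i
      have hiff : s i * (y - t i) ∈ per (P' i) ↔ y ∈ per (g i '' P' i) := by
        constructor
        · rintro ⟨j, hj⟩
          rcases hs i with h | h
          · refine ⟨j, ?_⟩
            rw [key]
            rw [h] at hj ⊢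
            have : (1 : ℝ) * (y + j - t i) = 1 * (y - t i) + j := by ring
            rw [this]
            exact hj
          · refine ⟨-j, ?_⟩
            rw [key]
            rw [h] at hj ⊢
            have : (-1 : ℝ) * (y + ((-j : ℤ) : ℝ) - t i) = -1 * (y - t i) + j := by
              push_cast; ring
            rw [this]
            exact hj
        · rintro ⟨j, hj⟩
          rw [key] at hj
          rcases hs i with h | h
          · refine ⟨j, ?_⟩
            rw [h] at hj ⊢
            have : (1 : ℝ) * (y + j - t i) = 1 * (y - t i) + j := by ring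
            rw [← this]
            exact hj
          · refine ⟨-j, ?_⟩
            rw [h] at hj ⊢
            have : (-1 : ℝ) * (y + (j : ℝ) - t i) = -1 * (y - t i) + ((-j : ℤ) : ℝ) := by
              push_cast; ring
            rw [← this]
            exact hj
      unfold ind
      by_cases h : y ∈ per (g i '' P' i)
      · rw [Set.indicator_of_mem h, Set.indicator_of_mem (hiff.2 h)]
      · rw [Set.indicator_of_notMem h, Set.indicator_of_notMem (fun h' => h (hiff.1 h'))]
    rw [Finset.sum_congr rfl (fun i _ => key2 i)]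
    apply core hB (fun i => g i '' P' i)
    · rintro i _ ⟨x, hx, rfl⟩
      exact hx.2
    · intro i j hij
      exact Set.disjoint_of_subset (image_mono fun x hx => hx.1.1)
        (image_mono fun x hx => hx.1.1) (h3 hij)
    · intro j hj
      have hyE : y + j ∉ E := fun h => hy ⟨j, Or.inl h⟩
      have hP : y + j ∈ ⋃ i, g i '' P i := by
        by_contra hn
        exact hyE (Or.inr (Or.inl ⟨hj, hn⟩))
      obtain ⟨i, x, hx, hxy⟩ := mem_iUnion.1 hP
      refine ⟨i, x, ⟨⟨hx, ?_⟩, ?_⟩, hxy⟩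
      · by_contra hn
        exact hyE (Or.inr (Or.inr (mem_iUnion.2 ⟨i, x, ⟨hx, hn⟩, hxy⟩)))
      · rw [mem_preimage, hxy]
        exact hj

end MP_2fe79c_gt.L1
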