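import Pool.Agent.Lib.MP_2fe79c_gt.L1.Stage
import Pool.Agent.Lib.MP_2fe79c_gt.L1.Bnd
import Pool.Agent.Lib.MP_2fe79c_gt.L1.Iso
import Pool.Agent.Lib.MP_2fe79c_gt.L1.Fro

/-!
# Assembly
-/

namespace MP_2fe79c_gt.L1

open MeasureTheory Set

theorem not_equi {b : ℝ} (hb : 0 < b) (hb' : b ≤ 1 / 4) {m : ℕ} (P : Fin (m + 1) → Set ℝ)
    (g : Fin (m + 1) → (ℝ ≃ᵢ ℝ))
    (h1 : Pairwise (fun i j => Disjoint (P i) (P j)))
    (h2 : volume (symmDiff A0 (⋃ i, P i)) = 0)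
    (h3 : Pairwise (fun i j => Disjoint (g i '' P i) (g j '' P j)))
    (h4 : volume (symmDiff (Ioo 0 b) (⋃ i, g i '' P i)) = 0) : False := by
  obtain ⟨P', s, t, Z, hs, hZ, hZn, hA, hB⟩ := reduce
    (A0_sub.trans (Ioo_subset_Ioo_right (by norm_num)))
    (Ioo_subset_Ioo_right (by linarith)) P g h1 h2 h3 h4
  obtain ⟨x, hx, hbig⟩ := stage m hb hb' (fun i => s i * t i) hZ
  have h := bound (N := nn m (qq m)) (A := A0) (B := Ioo 0 b) P' s t hs x
    (fun n y hy => hA y (by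
      rcases hy with hy | hy
      · rw [hy]; exact hx n
      · rw [hy]; exact hZn _ (hx n)))
    (fun n y hy => hB y (by
      rcases hy with hy | hy
      · rw [hy]; exact hx n
      · rw [hy]; exact hZn _ (hx n)))
  exact absurd (lt_of_lt_of_le hbig h) (lt_irrefl _)

end MP_2fe79c_gt.L1
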