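import Pool.Agent.Lib.MP_2fe79c_gt.L1.Defs

/-!
# The two measures
-/

namespace MP_2fe79c_gt.L1

open MeasureTheory Set

theorem meas_per {X : Set ℝ} (hX : MeasurableSet X) : MeasurableSet (per X) := by
  have h : per X = ⋃ j : ℤ, (fun y : ℝ => y + j) ⁻¹' X := by
    ext y
    simp [per]
  rw [h]
  exact MeasurableSet.iUnion fun j => (measurable_id.add_const _) hX

theorem per_add_one (X : Set ℝ) (y : ℝ) : y + 1 ∈ per X ↔ y ∈ per X := by
  constructor
  · rintro ⟨j, hj⟩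
    refine ⟨j + 1, ?_⟩
    have h : y + ((j + 1 : ℤ) : ℝ) = y + 1 + j := by push_cast; ring
    rw [h]
    exact hj
  · rintro ⟨j, hj⟩
    refine ⟨j - 1, ?_⟩
    have h : y + 1 + ((j - 1 : ℤ) : ℝ) = y + j := by push_cast; ring
    rw [h]
    exact hj

theorem near_vol {q : ℕ} (hq : 4 ≤ q) :
    2 / (q : ℝ) ≤ (volume (per (Ioo (-(1 / (q : ℝ))) (1 / (q : ℝ))) ∩ Ioc 0 1)).toReal := by
  have hq' : (4 : ℝ) ≤ q := by exact_mod_cast hq
  have hq0 : (0 : ℝ) < q := by linarith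
  have h4 : 1 / (q : ℝ) ≤ 1 / 4 := one_div_le_one_div_of_le (by norm_num) hq'
  have h0 : 0 < 1 / (q : ℝ) := by positivity
  have hsub : Ioo 0 (1 / (q : ℝ)) ∪ Ioo (1 - 1 / (q : ℝ)) 1 ⊆
      per (Ioo (-(1 / (q : ℝ))) (1 / (q : ℝ))) ∩ Ioc 0 1 := by
    rintro y (⟨h1, h2⟩ | ⟨h1, h2⟩)
    · refine ⟨⟨0, ?_⟩, h1, by linarith⟩
      constructor <;> push_cast <;> linarith
    · refine ⟨⟨-1, ?_⟩, by linarith, h2.le⟩
      constructor <;> push_cast <;> linarith
  have hdis : Disjoint (Ioo 0 (1 / (q : ℝ))) (Ioo (1 - 1 / (q : ℝ)) 1) := by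
    rw [Set.disjoint_left]
    rintro y ⟨_, h2⟩ ⟨h3, _⟩
    linarith
  have hv : (volume (Ioo 0 (1 / (q : ℝ)) ∪ Ioo (1 - 1 / (q : ℝ)) 1)).toReal = 2 / (q : ℝ) := by
    rw [measure_union hdis measurableSet_Ioo, Real.volume_Ioo, Real.volume_Ioo,
      ← ENNReal.ofReal_add (by linarith) (by linarith), ENNReal.toReal_ofReal (by linarith)]
    ring
  rw [← hv]
  refine ENNReal.toReal_mono ?_ (measure_mono hsub)
  exact ((measure_mono inter_subset_right).trans_lt (by rw [Real.volume_Ioc]; exact ENNReal.ofReal_lt_top)).ne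

theorem meas_bad (q : ℕ) (b l : ℝ) : MeasurableSet (Bad q b l) := by
  have h1 : {y : ℝ | ∃ c : ℤ, |y - c / q| ≤ 2 * l} = ⋃ c : ℤ, {y : ℝ | |y - c / q| ≤ 2 * l} := by
    ext y; simp
  have h2 : {y : ℝ | ∃ j : ℤ, |y + j - b| ≤ 2 * l} = ⋃ j : ℤ, {y : ℝ | |y + j - b| ≤ 2 * l} := by
    ext y; simp
  have h3 : {y : ℝ | ∃ j : ℤ, |y + j + b| ≤ 2 * l} = ⋃ j : ℤ, {y : ℝ | |y + j + b| ≤ 2 * l} := by
    ext y; simp
  unfold Bad
  rw [h1, h2, h3]
  refine (MeasurableSet.union (MeasurableSet.iUnion fun c => ?_) (MeasurableSet.iUnion fun c => ?_)).union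
    (MeasurableSet.iUnion fun c => ?_)
  · exact (isClosed_le (by fun_prop) continuous_const).measurableSet
  · exact (isClosed_le (by fun_prop) continuous_const).measurableSet
  · exact (isClosed_le (by fun_prop) continuous_const).measurableSet

theorem bad_add_one {q : ℕ} (hq : 1 ≤ q) (b l : ℝ) (y : ℝ) :
    y + 1 ∈ Bad q b l ↔ y ∈ Bad q b l := by
  have hq0 : (q : ℝ) ≠ 0 := by
    have : (1 : ℝ) ≤ q := by exact_mod_cast hq
    linarith
  have e1 : ∀ c : ℤ, y + 1 - c / q = y - ((c - q : ℤ) : ℝ) / q := by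
    intro c
    push_cast
    field_simp
    ring
  have e2 : ∀ c : ℤ, y - c / q = y + 1 - ((c + q : ℤ) : ℝ) / q := by
    intro c
    push_cast
    field_simp
    ring
  unfold Bad
  constructor
  · rintro ((⟨c, hc⟩ | ⟨j, hj⟩) | ⟨j, hj⟩)
    · exact Or.inl (Or.inl ⟨c - q, by rw [← e1]; exact hc⟩)
    · refine Or.inl (Or.inr ⟨j + 1, ?_⟩)
      have h : y + ((j + 1 : ℤ) : ℝ) - b = y + 1 + j - b := by push_cast; ring
      rw [h]; exact hj
    · refine Or.inr ⟨j + 1, ?_⟩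
      have h : y + ((j + 1 : ℤ) : ℝ) + b = y + 1 + j + b := by push_cast; ring
      rw [h]; exact hj
  · rintro ((⟨c, hc⟩ | ⟨j, hj⟩) | ⟨j, hj⟩)
    · exact Or.inl (Or.inl ⟨c + q, by rw [← e2]; exact hc⟩)
    · refine Or.inl (Or.inr ⟨j - 1, ?_⟩)
      have h : y + 1 + ((j - 1 : ℤ) : ℝ) - b = y + j - b := by push_cast; ring
      rw [h]; exact hj
    · refine Or.inr ⟨j - 1, ?_⟩
      have h : y + 1 + ((j - 1 : ℤ) : ℝ) + b = y + j + b := by push_cast; ring
      rw [h]; exact hj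

private theorem Meas_bunion (T : Finset ℤ) (f : ℤ → ℝ) (l : ℝ) :
    volume (⋃ c ∈ T, Icc (f c - 2 * l) (f c + 2 * l)) ≤ T.card * ENNReal.ofReal (4 * l) := by
  calc volume (⋃ c ∈ T, Icc (f c - 2 * l) (f c + 2 * l))
      ≤ ∑ c ∈ T, volume (Icc (f c - 2 * l) (f c + 2 * l)) := measure_biUnion_finset_le _ _
    _ = ∑ c ∈ T, ENNReal.ofReal (4 * l) := by
        refine Finset.sum_congr rfl fun c _ => ?_
        rw [Real.volume_Icc]
        congr 1
        ring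
    _ = T.card * ENNReal.ofReal (4 * l) := by rw [Finset.sum_const, nsmul_eq_mul]

theorem bad_vol {q : ℕ} (hq : 1 ≤ q) {b l : ℝ} (hb : 0 ≤ b) (hb' : b ≤ 1 / 2) (hl : 0 < l)
    (hl' : 2 * l ≤ 1) : (volume (Bad q b l ∩ Ioc 0 1)).toReal ≤ 76 * l * q := by
  have hq1 : (1 : ℝ) ≤ q := by exact_mod_cast hq
  have hq0 : (0 : ℝ) < q := by linarith
  have hsub : Bad q b l ∩ Ioc 0 1 ⊆
      (⋃ c ∈ Finset.Icc (-(q : ℤ)) (2 * q), Icc ((c : ℝ) / q - 2 * l) ((c : ℝ) / q + 2 * l)) ∪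
      (⋃ j ∈ Finset.Icc (-2 : ℤ) 1, Icc (b - (j : ℝ) - 2 * l) (b - (j : ℝ) + 2 * l)) ∪
      (⋃ j ∈ Finset.Icc (-2 : ℤ) 1, Icc (-b - (j : ℝ) - 2 * l) (-b - (j : ℝ) + 2 * l)) := by
    rintro y ⟨((⟨c, hc⟩ | ⟨j, hj⟩) | ⟨j, hj⟩), hy0, hy1⟩
    · left; left
      rw [abs_le] at hc
      have h1 : (c : ℝ) / q ≤ 2 := by linarith
      have h2 : -1 ≤ (c : ℝ) / q := by linarith
      rw [div_le_iff₀ hq0] at h1
      rw [le_div_iff₀ hq0] at h2
      have h3 : c ≤ 2 * q := by exact_mod_cast h1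
      have h4 : -(q : ℤ) ≤ c := by
        have : (-(q : ℝ)) ≤ c := by linarith
        exact_mod_cast this
      simp only [mem_iUnion, Finset.mem_Icc]
      exact ⟨c, ⟨h4, h3⟩, by constructor <;> linarith⟩
    · left; right
      rw [abs_le] at hj
      have h1 : (j : ℝ) < 2 := by linarith
      have h2 : (-3 : ℝ) < j := by linarith
      have h3 : j < 2 := by exact_mod_cast h1
      have h4 : -3 < j := by exact_mod_cast h2
      simp only [mem_iUnion, Finset.mem_Icc]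
      exact ⟨j, ⟨by omega, by omega⟩, by constructor <;> linarith⟩
    · right
      rw [abs_le] at hj
      have h1 : (j : ℝ) < 2 := by linarith
      have h2 : (-3 : ℝ) < j := by linarith
      have h3 : j < 2 := by exact_mod_cast h1
      have h4 : -3 < j := by exact_mod_cast h2
      simp only [mem_iUnion, Finset.mem_Icc]
      exact ⟨j, ⟨by omega, by omega⟩, by constructor <;> linarith⟩
  have h1 := Meas_bunion (Finset.Icc (-(q : ℤ)) (2 * q)) (fun c => (c : ℝ) / q) l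
  have h2 := Meas_bunion (Finset.Icc (-2 : ℤ) 1) (fun j => b - (j : ℝ)) l
  have h3 := Meas_bunion (Finset.Icc (-2 : ℤ) 1) (fun j => -b - (j : ℝ)) l
  have c1 : (Finset.Icc (-(q : ℤ)) (2 * q)).card = 3 * q + 1 := by
    rw [Int.card_Icc]
    omega
  have c2 : (Finset.Icc (-2 : ℤ) 1).card = 4 := by decide
  rw [c1] at h1
  rw [c2] at h2 h3
  have hle : volume (Bad q b l ∩ Ioc 0 1) ≤ ((3 * q + 9 : ℕ) : ENNReal) * ENNReal.ofReal (4 * l) := by
    calc volume (Bad q b l ∩ Ioc 0 1) ≤ _ := measure_mono hsub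
      _ ≤ _ := measure_union_le _ _
      _ ≤ _ := add_le_add_left (measure_union_le _ _) _
      _ ≤ ((3 * q + 1 : ℕ) : ENNReal) * ENNReal.ofReal (4 * l) +
          ((4 : ℕ) : ENNReal) * ENNReal.ofReal (4 * l) +
          ((4 : ℕ) : ENNReal) * ENNReal.ofReal (4 * l) := add_le_add (add_le_add h1 h2) h3
      _ = ((3 * q + 9 : ℕ) : ENNReal) * ENNReal.ofReal (4 * l) := by
          rw [← add_mul, ← add_mul]
          congr 1
          push_cast
          ring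
  calc (volume (Bad q b l ∩ Ioc 0 1)).toReal
      ≤ (((3 * q + 9 : ℕ) : ENNReal) * ENNReal.ofReal (4 * l)).toReal :=
        ENNReal.toReal_mono (ENNReal.mul_ne_top (ENNReal.natCast_ne_top _) ENNReal.ofReal_ne_top) hle
    _ = (3 * q + 9) * (4 * l) := by
        rw [ENNReal.toReal_mul, ENNReal.toReal_natCast, ENNReal.toReal_ofReal (by linarith)]
        push_cast
        ring
    _ ≤ 76 * l * q := by nlinarith

end MP_2fe79c_gt.L1
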