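import Pool.Agent.Lib.MP_2fe79c_gt.L1.Grid

/-!
# The symmetric function on a short progression
q = qq k, l = 1 / (q * RR k q) = LL / MM; y ∉ Bad q b l, 0 ≤ i < LL, so y' = y + i / MM is in [y, y + l).
Plan: since y is at distance > 2 l from all c / q, SameGap q y y' and SameGap q (-y) (-y').
near_A_far: y ∉ per (-1/q, 1/q): grid_far for y and for -y (-y ∉ per (-1/q,1/q) too), so sy A0 y' = sy A0 y.
near_A_near: let y + j ∈ (-1/q, 1/q): y + j ≠ 0, |y + j| > 2 l > 1 / qq (k+1) (1 / qq (k+1) = 1 / (2 MM) < l). If y + j > 0 then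
y' + j ∈ (1/qq (k+1), 1/q) (same gap), so grid_near for y': sy A0 y' = 1 if y' ∈ U, 0 if not. If y + j < 0 then
-y' - j ∈ (1/qq (k+1), 1/q): grid_near for -y' and U_neg.
near_B: the interval (0,b): y is at distance > 2 l from 0 and ±b modulo 1, so the whole [y, y + l] is on the same side of each of them
(the points 0, b, -b modulo 1): ind (per (Ioo 0 b)) y' = ind (per (Ioo 0 b)) y and the same for -y', -y.
-/

namespace MP_2fe79c_gt.L1

open MeasureTheory Set

private theorem Near_ind {X Y : Set ℝ} {x y : ℝ} (h : x ∈ X ↔ y ∈ Y) : ind X x = ind Y y := by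
  unfold ind
  by_cases hx : x ∈ X
  · rw [Set.indicator_of_mem hx, Set.indicator_of_mem (h.1 hx)]
  · rw [Set.indicator_of_notMem hx, Set.indicator_of_notMem (fun hy => hx (h.2 hy))]

private theorem Near_zero {X : Set ℝ} {x : ℝ} (h : x ∉ X) : ind X x = 0 := by
  unfold ind
  exact Set.indicator_of_notMem h _

/-- the numbers -/
private theorem Near_num (k : ℕ) :
    (0 : ℝ) < qq k ∧ (0 : ℝ) < 1 / ((qq k : ℝ) * RR k (qq k)) ∧ (0 : ℝ) < MM k (qq k) ∧
      (∀ i : ℕ, i < LL k (qq k) →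
        (i : ℝ) / MM k (qq k) < 1 / ((qq k : ℝ) * RR k (qq k)) ∧ 0 ≤ (i : ℝ) / MM k (qq k)) ∧
      1 / (qq (k + 1) : ℝ) < 1 / ((qq k : ℝ) * RR k (qq k)) := by
  have h4 := four_le_qq k
  have hq : (0 : ℝ) < qq k := by
    have : 0 < qq k := by omega
    exact_mod_cast this
  have hL : (0 : ℝ) < LL k (qq k) := by exact_mod_cast LL_pos k (qq k)
  have hL1 : (1 : ℝ) ≤ LL k (qq k) := by exact_mod_cast LL_pos k (qq k)
  have hR0 : 0 < RR k (qq k) := by
    unfold RR nn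
    have : 0 < qq k := by omega
    positivity
  have hR : (0 : ℝ) < RR k (qq k) := by exact_mod_cast hR0
  have hM : (MM k (qq k) : ℝ) = LL k (qq k) * qq k * RR k (qq k) := by
    unfold MM; push_cast; ring
  have hM0 : (0 : ℝ) < MM k (qq k) := by rw [hM]; positivity
  have hl : 1 / ((qq k : ℝ) * RR k (qq k)) = LL k (qq k) / MM k (qq k) := by
    rw [hM]
    field_simp
  refine ⟨hq, by positivity, hM0, ?_, ?_⟩
  · intro i hi
    refine ⟨?_, by positivity⟩
    rw [hl]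
    have : (i : ℝ) < LL k (qq k) := by exact_mod_cast hi
    exact div_lt_div_of_pos_right this hM0
  · have e : (qq (k + 1) : ℝ) = 2 * MM k (qq k) := by
      change ((2 * MM k (qq k) : ℕ) : ℝ) = _
      push_cast; ring
    rw [e, hl, div_lt_div_iff₀ (by positivity) hM0]
    nlinarith

/-- the distance from the multiples of `1 / q` -/
private theorem Near_bad1 {q : ℕ} {b l y : ℝ} (hy : y ∉ Bad q b l) (c : ℤ) :
    2 * l < |y - c / q| := by
  by_contra h
  push Not at h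
  exact hy (Or.inl (Or.inl ⟨c, h⟩))

private theorem Near_bad2 {q : ℕ} {b l y : ℝ} (hy : y ∉ Bad q b l) (j : ℤ) :
    2 * l < |y + j - b| := by
  by_contra h
  push Not at h
  exact hy (Or.inl (Or.inr ⟨j, h⟩))

private theorem Near_bad3 {q : ℕ} {b l y : ℝ} (hy : y ∉ Bad q b l) (j : ℤ) :
    2 * l < |y + j + b| := by
  by_contra h
  push Not at h
  exact hy (Or.inr ⟨j, h⟩)

/-- the distance from the integers -/
private theorem Near_bad0 {q : ℕ} {b l y : ℝ} (hq : (0 : ℝ) < q) (hy : y ∉ Bad q b l) (j : ℤ) :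
    2 * l < |y + j| := by
  have h := Near_bad1 hy (-j * q)
  have e : y - ((-j * (q : ℤ) : ℤ) : ℝ) / (q : ℝ) = y + j := by
    push_cast
    field_simp
    ring
  rw [e] at h
  exact h

/-- the distance from the integers plus `1 / q` -/
private theorem Near_bad4 {q : ℕ} {b l y : ℝ} (hq : (0 : ℝ) < q) (hy : y ∉ Bad q b l) (j : ℤ) :
    2 * l < |y + j - 1 / q| := by
  have h := Near_bad1 hy (1 - j * q)
  have e : y - ((1 - j * (q : ℤ) : ℤ) : ℝ) / (q : ℝ) = y + j - 1 / q := by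
    push_cast
    field_simp
    ring
  rw [e] at h
  exact h

private theorem Near_gap {q : ℕ} {b l y d : ℝ} (hq : (0 : ℝ) < q) (hl : 0 < l)
    (hy : y ∉ Bad q b l) (hd0 : 0 ≤ d) (hd : d < l) : SameGap q y (y + d) := by
  refine ⟨⌊(q : ℝ) * y⌋, ?_⟩
  have h1 := Int.floor_le ((q : ℝ) * y)
  have h2 := Int.lt_floor_add_one ((q : ℝ) * y)
  have h3 := Near_bad1 hy ⌊(q : ℝ) * y⌋
  have h4 := Near_bad1 hy (⌊(q : ℝ) * y⌋ + 1)
  push_cast at h4
  set c : ℝ := (⌊(q : ℝ) * y⌋ : ℝ) with hc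
  have h5 : c / q ≤ y := by
    rw [div_le_iff₀ hq]; linarith
  have h6 : y < (c + 1) / q := by
    rw [lt_div_iff₀ hq]; linarith
  rw [abs_of_nonneg (by linarith)] at h3
  rw [abs_of_nonpos (by linarith)] at h4
  have h7 : c < q * y := by
    have : c / q < y := by linarith
    rw [div_lt_iff₀ hq] at this
    linarith
  have h8 : q * (y + d) < c + 1 := by
    have : y + d < (c + 1) / q := by linarith
    rw [lt_div_iff₀ hq] at this
    linarith
  have h9 : (q : ℝ) * y ≤ q * (y + d) := mul_le_mul_of_nonneg_left (by linarith) hq.le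
  exact ⟨h7, h2, by linarith, h8⟩

private theorem Near_gap_neg {q : ℕ} {y y' : ℝ} (h : SameGap q y y') : SameGap q (-y) (-y') := by
  obtain ⟨c, h1, h2, h3, h4⟩ := h
  refine ⟨-c - 1, ?_, ?_, ?_, ?_⟩ <;> push_cast <;> linarith

theorem near_A_near {k : ℕ} {b y : ℝ}
    (hy : y ∉ Bad (qq k) b (1 / ((qq k : ℝ) * RR k (qq k)))) {i : ℕ} (hi : i < LL k (qq k))
    (hn : y ∈ per (Ioo (-(1 / (qq k : ℝ))) (1 / (qq k : ℝ)))) :
    sy A0 (y + (i : ℝ) / MM k (qq k)) = ind (U k (qq k)) (y + (i : ℝ) / MM k (qq k)) := by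
  obtain ⟨hq, hl, hM, hil, hk1⟩ := Near_num k
  obtain ⟨hd, hd0⟩ := hil i hi
  obtain ⟨j, hj1, hj2⟩ := hn
  have h0 := Near_bad0 hq hy j
  have h1 := Near_bad4 hq hy j
  rw [abs_of_neg (by linarith)] at h1
  unfold sy
  rcases lt_or_ge 0 (y + j) with hpos | hneg
  · rw [abs_of_pos hpos] at h0
    have hmem : y + (i : ℝ) / MM k (qq k) ∈
        per (Ioo (1 / (qq (k + 1) : ℝ)) (1 / (qq k : ℝ))) := by
      refine ⟨j, ?_, ?_⟩ <;> linarith
    obtain ⟨g1, g2⟩ := grid_near hmem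
    rw [Near_ind g1, Near_zero g2, add_zero]
  · rw [abs_of_nonpos hneg] at h0
    have hmem : -(y + (i : ℝ) / MM k (qq k)) ∈
        per (Ioo (1 / (qq (k + 1) : ℝ)) (1 / (qq k : ℝ))) := by
      refine ⟨-j, ?_, ?_⟩ <;> push_cast <;> linarith
    obtain ⟨g1, g2⟩ := grid_near hmem
    rw [neg_neg] at g2
    rw [Near_zero g2, zero_add]
    exact Near_ind (g1.trans U_neg)

theorem near_A_far {k : ℕ} {b y : ℝ}
    (hy : y ∉ Bad (qq k) b (1 / ((qq k : ℝ) * RR k (qq k)))) {i : ℕ} (hi : i < LL k (qq k))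
    (hn : y ∉ per (Ioo (-(1 / (qq k : ℝ))) (1 / (qq k : ℝ)))) :
    sy A0 (y + (i : ℝ) / MM k (qq k)) = sy A0 y := by
  obtain ⟨hq, hl, hM, hil, hk1⟩ := Near_num k
  obtain ⟨hd, hd0⟩ := hil i hi
  have hg := Near_gap hq hl hy hd0 hd
  have hn' : -y ∉ per (Ioo (-(1 / (qq k : ℝ))) (1 / (qq k : ℝ))) := by
    rintro ⟨j, h1, h2⟩
    refine hn ⟨-j, ?_, ?_⟩ <;> push_cast <;> linarith
  have g1 := grid_far hg hn
  have g2 := grid_far (Near_gap_neg hg) hn'
  unfold sy
  rw [Near_ind g1, Near_ind g2]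

theorem near_B {k : ℕ} {b y : ℝ} (hb : 0 < b) (hb' : b ≤ 1 / 4)
    (hy : y ∉ Bad (qq k) b (1 / ((qq k : ℝ) * RR k (qq k)))) {i : ℕ} (hi : i < LL k (qq k)) :
    sy (Ioo 0 b) (y + (i : ℝ) / MM k (qq k)) = sy (Ioo 0 b) y := by
  obtain ⟨hq, hl, hM, hil, hk1⟩ := Near_num k
  obtain ⟨hd, hd0⟩ := hil i hi
  unfold sy
  have e1 : y + (i : ℝ) / MM k (qq k) ∈ per (Ioo 0 b) ↔ y ∈ per (Ioo 0 b) := by
    constructor
    · rintro ⟨j, h1, h2⟩
      have h3 := Near_bad0 hq hy j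
      refine ⟨j, ?_, by linarith⟩
      by_contra hcon
      push Not at hcon
      rw [abs_of_nonpos hcon] at h3
      linarith
    · rintro ⟨j, h1, h2⟩
      have h3 := Near_bad2 hy j
      rw [abs_of_neg (by linarith)] at h3
      exact ⟨j, by linarith, by linarith⟩
  have e2 : -(y + (i : ℝ) / MM k (qq k)) ∈ per (Ioo 0 b) ↔ -y ∈ per (Ioo 0 b) := by
    constructor
    · rintro ⟨j, h1, h2⟩
      have h3 := Near_bad3 hy (-j)
      push_cast at h3
      refine ⟨j, by linarith, ?_⟩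
      by_contra hcon
      push Not at hcon
      rw [abs_of_nonpos (by linarith)] at h3
      linarith
    · rintro ⟨j, h1, h2⟩
      have h3 := Near_bad0 hq hy (-j)
      push_cast at h3
      rw [abs_of_neg (by linarith)] at h3
      exact ⟨j, by linarith, by linarith⟩
  rw [Near_ind e1, Near_ind e2]

end MP_2fe79c_gt.L1
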