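import Pool.Agent.Lib.MP_2fe79c_gt.L1.Main

/-!
# The regular open set
-/

namespace MP_2fe79c_gt.L1

open MeasureTheory Set

/-- The regular open set. -/
def A1 : Set ℝ := interior (closure A0)

theorem A0_sub_A1 : A0 ⊆ A1 := A0_open.subset_interior_closure

theorem closure_A1 : closure A1 = closure A0 :=
  Subset.antisymm (closure_minimal interior_subset isClosed_closure) (closure_mono A0_sub_A1)

theorem A1_reg : interior (closure A1) = A1 := by
  rw [closure_A1]; rfl

theorem A1_open : IsOpen A1 := isOpen_interior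

theorem A1_frontier : frontier A1 ⊆ frontier A0 := by
  rw [A1_open.frontier_eq, A0_open.frontier_eq, closure_A1]
  exact diff_subset_diff_right A0_sub_A1

theorem null_frontier : volume (frontier A0) = 0 :=
  (Countable.mono A0_frontier (countable_range _)).measure_zero _

theorem A1_diff : volume (A1 \ A0) = 0 := by
  refine measure_mono_null ?_ null_frontier
  rw [A0_open.frontier_eq]
  exact diff_subset_diff_left interior_subset

theorem A1_sub : A1 ⊆ Ioo 0 (1 / 4) := by
  have h : A1 ⊆ interior (closure (Ioo (0 : ℝ) (1 / 4))) := interior_mono (closure_mono A0_sub)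
  rwa [closure_Ioo (by norm_num), interior_Icc] at h

theorem A1_pos : 0 < volume A1 := by
  have h := A1_open.measure_pos volume (A0_ne.mono A0_sub_A1)
  exact h

theorem A1_le : volume A1 ≤ ENNReal.ofReal (1 / 4) := by
  refine (measure_mono A1_sub).trans ?_
  rw [Real.volume_Ioo]
  simp

theorem A1_ne_top : volume A1 ≠ ⊤ := ne_top_of_le_ne_top ENNReal.ofReal_ne_top A1_le

theorem null_image {X : Set ℝ} (hX : volume X = 0) (g : ℝ ≃ᵢ ℝ) : volume (g '' X) = 0 := by
  rw [← hausdorffMeasure_real] at hX ⊢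
  rw [g.isometry.hausdorffMeasure_image (Or.inl zero_le_one)]
  exact hX

theorem join_null {k : ℕ} (P : Fin k → Set ℝ) (ho : ∀ i, IsOpen (P i))
    (hf : ∀ i, volume (frontier (P i)) = 0) :
    volume (symmDiff (interior (closure (⋃ i, P i))) (⋃ i, P i)) = 0 := by
  have hU : IsOpen (⋃ i, P i) := isOpen_iUnion ho
  have h1 : (⋃ i, P i) ⊆ interior (closure (⋃ i, P i)) := hU.subset_interior_closure
  have h2 : symmDiff (interior (closure (⋃ i, P i))) (⋃ i, P i) ⊆ ⋃ i, frontier (P i) := by
    intro x hx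
    rcases hx with ⟨hx1, hx2⟩ | ⟨hx1, hx2⟩
    · have h3 : x ∈ closure (⋃ i, P i) := interior_subset hx1
      rw [closure_iUnion_of_finite] at h3
      obtain ⟨i, hi⟩ := mem_iUnion.mp h3
      refine mem_iUnion.mpr ⟨i, ?_⟩
      rw [(ho i).frontier_eq]
      exact ⟨hi, fun h => hx2 (mem_iUnion.mpr ⟨i, h⟩)⟩
    · exact absurd (h1 hx1) hx2
  refine measure_mono_null h2 ?_
  rw [measure_iUnion_null_iff]
  exact hf

theorem general (k : ℕ) (P : Fin k → Set ℝ) (g : Fin k → (ℝ ≃ᵢ ℝ))
    (h1 : Pairwise (fun i j => Disjoint (P i) (P j)))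
    (h3 : Pairwise (fun i j => Disjoint (g i '' P i) (g j '' P j)))
    (h2 : volume (symmDiff A1 (⋃ i, P i)) = 0) :
    volume (symmDiff (Ioo 0 (volume A1).toReal) (⋃ i, g i '' P i)) ≠ 0 := by
  intro h4
  rcases k with _ | m
  · have : (⋃ i, P i) = ∅ := by simp
    rw [this] at h2
    have h5 : symmDiff A1 (∅ : Set ℝ) = A1 := by simp
    rw [h5] at h2
    exact absurd h2 A1_pos.ne'
  · have hb : 0 < (volume A1).toReal := ENNReal.toReal_pos A1_pos.ne' A1_ne_top
    have hb' : (volume A1).toReal ≤ 1 / 4 := by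
      have := ENNReal.toReal_mono ENNReal.ofReal_ne_top A1_le
      rwa [ENNReal.toReal_ofReal (by norm_num)] at this
    refine not_equi hb hb' P g h1 ?_ h3 h4
    refine measure_mono_null (t := (A1 \ A0) ∪ symmDiff A1 (⋃ i, P i)) ?_
      (measure_union_null A1_diff h2)
    intro x hx
    rcases hx with ⟨hx1, hx2⟩ | ⟨hx1, hx2⟩
    · exact Or.inr (Or.inl ⟨A0_sub_A1 hx1, hx2⟩)
    · by_cases hx : x ∈ A1
      · exact Or.inl ⟨hx, hx2⟩
      · exact Or.inr (Or.inr ⟨hx1, hx⟩)

theorem bodies : ¬ ∃ (k : ℕ) (P : Fin k → Set ℝ) (g : Fin k → (ℝ ≃ᵢ ℝ)),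
    (∀ i, Bornology.IsBounded (P i) ∧ interior (closure (P i)) = P i ∧
      volume (frontier (P i)) = 0) ∧
    Pairwise (fun i j => Disjoint (P i) (P j)) ∧
    interior (closure (⋃ i, P i)) = A1 ∧
    Pairwise (fun i j => Disjoint (g i '' P i) (g j '' P j)) ∧
    interior (closure (⋃ i, g i '' P i)) = Ioo 0 (volume A1).toReal := by
  rintro ⟨k, P, g, hP, h1, h2, h3, h4⟩
  have ho : ∀ i, IsOpen (P i) := fun i => by
    rw [← (hP i).2.1]; exact isOpen_interior
  have e1 := join_null P ho fun i => (hP i).2.2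
  rw [h2] at e1
  have e2 := join_null (fun i => g i '' P i) (fun i => (g i).toHomeomorph.isOpenMap _ (ho i))
    (fun i => by
      have : frontier (g i '' P i) = g i '' frontier (P i) :=
        ((g i).toHomeomorph.image_frontier (P i)).symm
      rw [this]
      exact null_image (hP i).2.2 (g i))
  rw [h4] at e2
  exact general k P g h1 h3 e1 e2

end MP_2fe79c_gt.L1
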