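import Pool.Agent.Lib.MP_2fe79c_gt.L1.Crt
import Pool.Agent.Lib.MP_2fe79c_gt.L1.Avg
import Pool.Agent.Lib.MP_2fe79c_gt.L1.Meas
import Pool.Agent.Lib.MP_2fe79c_gt.L1.Near

/-!
# The discrepancy is large
-/

namespace MP_2fe79c_gt.L1

open MeasureTheory Set

private theorem vol_shift {Z : Set ℝ} (hZ : volume Z = 0) (c : ℝ) :
    volume {x : ℝ | x + c ∈ Z} = 0 := by
  have h : {x : ℝ | x + c ∈ Z} = (fun x => x + c) ⁻¹' Z := rfl
  rw [h, measure_preimage_add_right]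
  exact hZ

private theorem sum_diff {k : ℕ} {b : ℝ} (hb : 0 < b) (hb' : b ≤ 1 / 4) (y : ℝ)
    (hy : y ∉ Bad (qq k) b (1 / ((qq k : ℝ) * RR k (qq k)))) {i i' : ℕ}
    (hi : i < LL k (qq k)) (hi' : i' < LL k (qq k))
    (hU : y + (i : ℝ) / MM k (qq k) ∈ U k (qq k)) (hU' : y + (i' : ℝ) / MM k (qq k) ∉ U k (qq k)) :
    (sy A0 (y + (i : ℝ) / MM k (qq k)) - sy (Ioo 0 b) (y + (i : ℝ) / MM k (qq k))) -
      (sy A0 (y + (i' : ℝ) / MM k (qq k)) - sy (Ioo 0 b) (y + (i' : ℝ) / MM k (qq k))) =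
      ind (per (Ioo (-(1 / (qq k : ℝ))) (1 / (qq k : ℝ)))) y := by
  rw [near_B hb hb' hy hi, near_B hb hb' hy hi']
  by_cases hn : y ∈ per (Ioo (-(1 / (qq k : ℝ))) (1 / (qq k : ℝ)))
  · rw [near_A_near hy hi hn, near_A_near hy hi' hn]
    have h1 : ind (U k (qq k)) (y + (i : ℝ) / MM k (qq k)) = 1 := Set.indicator_of_mem hU _
    have h2 : ind (U k (qq k)) (y + (i' : ℝ) / MM k (qq k)) = 0 := Set.indicator_of_notMem hU' _
    have h3 : ind (per (Ioo (-(1 / (qq k : ℝ))) (1 / (qq k : ℝ)))) y = 1 :=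
      Set.indicator_of_mem hn _
    rw [h1, h2, h3]
    ring
  · rw [near_A_far hy hi hn, near_A_far hy hi' hn]
    have h3 : ind (per (Ioo (-(1 / (qq k : ℝ))) (1 / (qq k : ℝ)))) y = 0 :=
      Set.indicator_of_notMem hn _
    rw [h3]
    ring

theorem stage (k : ℕ) {b : ℝ} (hb : 0 < b) (hb' : b ≤ 1 / 4) (t : Fin (k + 1) → ℝ) {Z : Set ℝ}
    (hZ : volume Z = 0) :
    ∃ x : ℝ, (∀ n : Ix k (qq k), x + dot t n ∉ Z) ∧
      2 * (k + 1) * (nn k (qq k) : ℝ) ^ k <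
        |∑ n : Ix k (qq k), (sy A0 (x + dot t n) - sy (Ioo 0 b) (x + dot t n))| := by
  classical
  have hq4 : 4 ≤ qq k := four_le_qq k
  have hqR : (4 : ℝ) ≤ (qq k : ℝ) := by exact_mod_cast hq4
  have hN1 : nn k (qq k) = 8 * (k + 1) * qq k + 1 := rfl
  have hNpos : 0 < nn k (qq k) := by rw [hN1]; omega
  have hNR : (0 : ℝ) < (nn k (qq k) : ℝ) := by exact_mod_cast hNpos
  have hNR' : (nn k (qq k) : ℝ) = 8 * (k + 1) * qq k + 1 := by rw [hN1]; push_cast; ring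
  have hRR : (RR k (qq k) : ℝ) = 100 * (qq k) * (nn k (qq k) : ℝ) ^ (k + 1) := by
    rw [RR]; push_cast; ring
  have hpow : (1 : ℝ) ≤ (nn k (qq k) : ℝ) ^ (k + 1) := by
    apply one_le_pow₀
    exact_mod_cast hNpos
  have hRpos : (0 : ℝ) < (RR k (qq k) : ℝ) := by
    rw [hRR]; positivity
  have hM : 0 < MM k (qq k) := MM_pos (by omega)
  have hMR : (0 : ℝ) < (MM k (qq k) : ℝ) := by exact_mod_cast hM
  set l : ℝ := 1 / ((qq k : ℝ) * RR k (qq k)) with hl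
  have hlpos : 0 < l := by rw [hl]; positivity
  have hl2 : 2 * l ≤ 1 := by
    rw [hl, mul_one_div, div_le_one (by positivity), hRR]
    nlinarith [mul_le_mul hqR hpow (by norm_num) (by linarith)]
  set W : Set ℝ := per (Ioo (-(1 / (qq k : ℝ))) (1 / (qq k : ℝ))) with hW
  -- the exceptional null set
  set Z' : Set ℝ := (⋃ n : Ix k (qq k), ⋃ i : ℕ, {x | x + ((i : ℝ) / MM k (qq k) + dot t n) ∈ Z}) ∪
    (⋃ n : Ix k (qq k), ⋃ z : ℤ, {x : ℝ | (MM k (qq k) : ℝ) * (x + dot t n) = z + 1 / 2}) with hZ'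
  have hZ'0 : volume Z' = 0 := by
    rw [hZ', measure_union_null_iff]
    constructor
    · rw [measure_iUnion_null_iff]
      intro n
      rw [measure_iUnion_null_iff]
      intro i
      exact vol_shift hZ _
    · rw [measure_iUnion_null_iff]
      intro n
      rw [measure_iUnion_null_iff]
      intro z
      have hsub : {x : ℝ | (MM k (qq k) : ℝ) * (x + dot t n) = z + 1 / 2} ⊆
          {((z : ℝ) + 1 / 2) / MM k (qq k) - dot t n} := by
        intro x hx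
        have hx' : (MM k (qq k) : ℝ) * (x + dot t n) = z + 1 / 2 := hx
        rw [mem_singleton_iff]
        field_simp
        linarith
      exact measure_mono_null hsub (measure_singleton _)
  have hlt : (nn k (qq k) : ℝ) ^ (k + 1) * (76 * l * (qq k : ℝ)) < 2 / (qq k : ℝ) / 2 := by
    have h1 : (nn k (qq k) : ℝ) ^ (k + 1) * (76 * l * (qq k : ℝ)) = 76 / 100 / (qq k : ℝ) := by
      rw [hl, hRR]
      field_simp
    rw [h1]
    have h2 : 2 / (qq k : ℝ) / 2 = 1 / (qq k : ℝ) := by ring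
    rw [h2]
    apply div_lt_div_of_pos_right _ (by linarith)
    norm_num
  obtain ⟨x0, hx0, hxV, hxW⟩ := avg hNpos t (W := W) (V := Bad (qq k) b l) (Z := Z')
    (meas_per measurableSet_Ioo) (meas_bad _ _ _) (per_add_one _)
    (bad_add_one (by omega) _ _) (near_vol hq4)
    (bad_vol (by omega) hb.le (by linarith) hlpos hl2) hlt hZ'0
  have htie : ∀ n : Ix k (qq k), ∀ z : ℤ,
      (MM k (qq k) : ℝ) * (x0 + dot t n) ≠ z + 1 / 2 := by
    intro n z h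
    apply hx0
    right
    exact mem_iUnion.mpr ⟨n, mem_iUnion.mpr ⟨z, h⟩⟩
  obtain ⟨⟨i, hi, hiU⟩, i', hi', hiU'⟩ := pat (q := qq k) (by omega)
    (fun n : Ix k (qq k) => x0 + dot t n) htie
  have hgood : ∀ j : ℕ, ∀ n : Ix k (qq k), x0 + (j : ℝ) / MM k (qq k) + dot t n ∉ Z := by
    intro j n h
    apply hx0
    left
    refine mem_iUnion.mpr ⟨n, mem_iUnion.mpr ⟨j, ?_⟩⟩
    change x0 + ((j : ℝ) / MM k (qq k) + dot t n) ∈ Z
    rwa [← add_assoc]
  have hdiff : (∑ n : Ix k (qq k), (sy A0 (x0 + (i : ℝ) / MM k (qq k) + dot t n) -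
        sy (Ioo 0 b) (x0 + (i : ℝ) / MM k (qq k) + dot t n))) -
      (∑ n : Ix k (qq k), (sy A0 (x0 + (i' : ℝ) / MM k (qq k) + dot t n) -
        sy (Ioo 0 b) (x0 + (i' : ℝ) / MM k (qq k) + dot t n))) =
      ∑ n : Ix k (qq k), ind W (x0 + dot t n) := by
    rw [← Finset.sum_sub_distrib]
    refine Finset.sum_congr rfl fun n _ => ?_
    have e : ∀ j : ℕ, x0 + (j : ℝ) / MM k (qq k) + dot t n =
        (x0 + dot t n) + (j : ℝ) / MM k (qq k) := fun j => by ring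
    rw [e i, e i']
    exact sum_diff hb hb' _ (hxV n) hi hi' (hiU n) (hiU' n)
  have hbig : 4 * ((k : ℝ) + 1) * (nn k (qq k) : ℝ) ^ k <
      ∑ n : Ix k (qq k), ind W (x0 + dot t n) := by
    refine lt_of_lt_of_le ?_ hxW
    have h2 : 2 / (qq k : ℝ) / 2 = 1 / (qq k : ℝ) := by ring
    rw [h2, pow_succ, ← sub_pos]
    have h3 : 1 / (qq k : ℝ) * ((nn k (qq k) : ℝ) ^ k * (nn k (qq k) : ℝ)) -
        4 * ((k : ℝ) + 1) * (nn k (qq k) : ℝ) ^ k =
        (nn k (qq k) : ℝ) ^ k * ((nn k (qq k) : ℝ) / (qq k : ℝ) - 4 * ((k : ℝ) + 1)) := by ring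
    rw [h3]
    apply mul_pos (pow_pos hNR _)
    rw [hNR', sub_pos, lt_div_iff₀ (by linarith)]
    have : (0 : ℝ) ≤ (k : ℝ) := Nat.cast_nonneg k
    nlinarith
  by_contra hcon
  push Not at hcon
  have c1 := hcon (x0 + (i : ℝ) / MM k (qq k)) (hgood i)
  have c2 := hcon (x0 + (i' : ℝ) / MM k (qq k)) (hgood i')
  have c3 := abs_le.mp c1
  have c4 := abs_le.mp c2
  linarith [c3.2, c4.1]

end MP_2fe79c_gt.L1
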