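import Pool.Agent.Lib.MP_2fe79c_gt.L1.Defs

/-!
# Telescoping sums
Plan: for fixed i use Fin.insertNthEquiv (fun _ => Fin N) i : Fin N × (Fin m → Fin N) ≃ (Fin (m+1) → Fin N) (Fin.sum_univ_succAbove for
dot): the sum over the coordinate i is ∑ a : Fin N, (u (z + a * t i) - u (z + a * t i - t i)) = u (z + (N-1) * t i) - u (z - t i)
(Finset.sum_range_sub, if N ≥ 1; 0 if N = 0), which is in [-1, 1]. There are N^m values of the other coordinates.
tele' follows from tele with x + t i in place of x.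
-/

namespace MP_2fe79c_gt.L1

open MeasureTheory Set

private theorem Tele_one {N : ℕ} {u : ℝ → ℝ} (h0 : ∀ y, 0 ≤ u y) (h1 : ∀ y, u y ≤ 1) (z s : ℝ) :
    |∑ a : Fin N, (u (z + ((a : ℕ) : ℝ) * s) - u (z + ((a : ℕ) : ℝ) * s - s))| ≤ 1 := by
  have e : ∑ a : Fin N, (u (z + ((a : ℕ) : ℝ) * s) - u (z + ((a : ℕ) : ℝ) * s - s)) =
      ∑ a ∈ Finset.range N, ((fun b : ℕ => u (z + (b : ℝ) * s - s)) (a + 1) -
        (fun b : ℕ => u (z + (b : ℝ) * s - s)) a) := by
    rw [← Fin.sum_univ_eq_sum_range (fun a : ℕ => (fun b : ℕ => u (z + (b : ℝ) * s - s)) (a + 1) -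
        (fun b : ℕ => u (z + (b : ℝ) * s - s)) a) N]
    refine Finset.sum_congr rfl fun a _ => ?_
    have e1 : z + (((a : ℕ) + 1 : ℕ) : ℝ) * s - s = z + ((a : ℕ) : ℝ) * s := by
      push_cast
      ring
    simp only
    rw [e1]
  rw [e, Finset.sum_range_sub (fun b : ℕ => u (z + (b : ℝ) * s - s)) N, abs_le]
  have a1 := h0 (z + (N : ℝ) * s - s)
  have a2 := h1 (z + (N : ℝ) * s - s)
  have a3 := h0 (z + ((0 : ℕ) : ℝ) * s - s)
  have a4 := h1 (z + ((0 : ℕ) : ℝ) * s - s)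
  constructor
  · linarith
  · linarith

theorem tele {m N : ℕ} {u : ℝ → ℝ} (h0 : ∀ y, 0 ≤ u y) (h1 : ∀ y, u y ≤ 1)
    (t : Fin (m + 1) → ℝ) (i : Fin (m + 1)) (x : ℝ) :
    |∑ n : Fin (m + 1) → Fin N, (u (x + dot t n) - u (x + dot t n - t i))| ≤ (N : ℝ) ^ m := by
  rw [← (Fin.insertNthEquiv (fun _ => Fin N) i).sum_comp, Fintype.sum_prod_type_right]
  refine (Finset.abs_sum_le_sum_abs _ _).trans ?_
  have key : ∀ n' : Fin m → Fin N, |∑ a : Fin N,
      (u (x + dot t ((Fin.insertNthEquiv (fun _ => Fin N) i) (a, n'))) -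
        u (x + dot t ((Fin.insertNthEquiv (fun _ => Fin N) i) (a, n')) - t i))| ≤ 1 := by
    intro n'
    have hd : ∀ a : Fin N, x + dot t ((Fin.insertNthEquiv (fun _ => Fin N) i) (a, n')) =
        (x + ∑ j, ((n' j : ℕ) : ℝ) * t (i.succAbove j)) + ((a : ℕ) : ℝ) * t i := by
      intro a
      unfold dot
      rw [Fin.sum_univ_succAbove _ i]
      have e1 : (Fin.insertNthEquiv (fun _ => Fin N) i) (a, n') i = a :=
        Fin.insertNth_apply_same (α := fun _ => Fin N) i a n'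
      have e2 : ∀ j, (Fin.insertNthEquiv (fun _ => Fin N) i) (a, n') (i.succAbove j) = n' j :=
        fun j => Fin.insertNth_apply_succAbove (α := fun _ => Fin N) i a n' j
      rw [e1]
      simp only [e2]
      ring
    have := Tele_one (N := N) h0 h1 (x + ∑ j, ((n' j : ℕ) : ℝ) * t (i.succAbove j)) (t i)
    refine le_of_eq_of_le ?_ this
    congr 1
    refine Finset.sum_congr rfl fun a _ => ?_
    rw [hd a]
  refine (Finset.sum_le_sum fun n' _ => key n').trans (le_of_eq ?_)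
  rw [Finset.sum_const, Finset.card_univ, Fintype.card_fun, Fintype.card_fin, Fintype.card_fin,
    nsmul_eq_mul, mul_one]
  push_cast
  rfl

theorem tele' {m N : ℕ} {u : ℝ → ℝ} (h0 : ∀ y, 0 ≤ u y) (h1 : ∀ y, u y ≤ 1)
    (t : Fin (m + 1) → ℝ) (i : Fin (m + 1)) (x : ℝ) :
    |∑ n : Fin (m + 1) → Fin N, (u (x + dot t n) - u (x + dot t n + t i))| ≤ (N : ℝ) ^ m := by
  have h := tele (N := N) h0 h1 t i (x + t i)
  rw [← abs_neg, ← Finset.sum_neg_distrib] at h
  refine le_of_eq_of_le ?_ h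
  congr 1
  refine Finset.sum_congr rfl fun n _ => ?_
  have e1 : x + t i + dot t n = x + dot t n + t i := by ring
  have e2 : x + dot t n + t i - t i = x + dot t n := by ring
  rw [e1, e2]
  ring

end MP_2fe79c_gt.L1
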